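import Mathlib

/-!
Surfaces in Euclidean space up to Frechet distance, saddle surfaces, immersed surfaces.
-/

namespace Pool.Agent.MP_17e62b_gt

open scoped Manifold InnerProductSpace ENNReal

/-- A surface in `E^n`: a continuous map of a compact connected Hausdorff topological
2-manifold with non-empty boundary. -/
structure Surface (n : ℕ) where
  M : Type
  [top : TopologicalSpace M]
  [charts : ChartedSpace (EuclideanHalfSpace 2) M]
  t2 : T2Space M
  compact : CompactSpace M
  connected : ConnectedSpace M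
  boundary_nonempty : ((𝓡∂ 2).boundary M).Nonempty
  f : M → EuclideanSpace ℝ (Fin n)
  continuous : Continuous f

attribute [instance] Surface.top Surface.charts

/-- `U` is a crust cut off from `S` by the hyperplane `⟪ν, x⟫ = c`, on the side `⟪ν, x⟫ > c`. -/
def Surface.IsCrust {n : ℕ} (S : Surface n) (ν : EuclideanSpace ℝ (Fin n)) (c : ℝ)
    (U : Set S.M) : Prop :=
  U.Nonempty ∧ IsOpen U ∧ IsCompact (closure U) ∧ Disjoint (closure U) ((𝓡∂ 2).boundary S.M) ∧
    (∀ x ∈ U, c < ⟪ν, S.f x⟫_ℝ) ∧ ∀ x ∈ closure U \ U, ⟪ν, S.f x⟫_ℝ = c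

/-- No hyperplane cuts off a crust. -/
def Surface.IsSaddle {n : ℕ} (S : Surface n) : Prop :=
  ∀ (ν : EuclideanSpace ℝ (Fin n)) (c : ℝ) (U : Set S.M), ν ≠ 0 → ¬ S.IsCrust ν c U

/-- `M` is a `C^k` manifold for the model `I`, and `f` is a `C^k` map from `M` to the normed space
`F` whose differential is injective at every point. -/
def IsImmersionMap {E H M F : Type} [NormedAddCommGroup E] [NormedSpace ℝ E] [TopologicalSpace H]
    [TopologicalSpace M] [ChartedSpace H M] [NormedAddCommGroup F] [NormedSpace ℝ F]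
    (I : ModelWithCorners ℝ E H) (k : ℕ) (f : M → F) : Prop :=
  IsManifold I k M ∧ ContMDiff I (modelWithCornersSelf ℝ F) k f ∧
    ∀ x, Function.Injective (mfderiv I (modelWithCornersSelf ℝ F) f x)

/-- `S` is a `C^k` immersion of a `C^k` manifold with boundary. -/
def Surface.IsImmersion {n : ℕ} (k : ℕ) (S : Surface n) : Prop :=
  IsImmersionMap (𝓡∂ 2) k S.f

/-- The Frechet distance, infinite if the two domains are not homeomorphic. -/
noncomputable def frechetDist {n : ℕ} (S T : Surface n) : ℝ≥0∞ :=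
  ⨅ h : S.M ≃ₜ T.M, ⨆ x : S.M, edist (S.f x) (T.f (h x))

end Pool.Agent.MP_17e62b_gt
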