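import Pool.Agent.MP_17e62b_gt.Smooth

namespace Pool.Agent.MP_17e62b_gt

open Set Complex Filter Topology Metric Asymptotics Pool.Agent.Lib.PlaneTop
open scoped ComplexConjugate

lemma uniform_noNormal {K : Set (ℂ × (V →L[ℝ] ℝ))} (hK : IsCompact K)
    (h : ∀ x ∈ K, x.1 ∈ ball (0 : ℂ) 1 ∧ dPhi x.2 x.1 ≠ 0) :
    ∃ ε, 0 < ε ∧ ∀ G : ℂ → V, Good G → Imm G → (∀ z ∈ ball (0 : ℂ) 1, ‖G z - f0 z‖ ≤ ε) →
      ∀ x ∈ K, ¬ IsNormal G x.1 x.2 := by
  refine hK.induction_on (p := fun S => ∃ ε, 0 < ε ∧ ∀ G : ℂ → V, Good G → Imm G →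
    (∀ z ∈ ball (0 : ℂ) 1, ‖G z - f0 z‖ ≤ ε) → ∀ x ∈ S, ¬ IsNormal G x.1 x.2)
    ⟨1, one_pos, by simp⟩ ?_ ?_ ?_
  · rintro s t hst ⟨ε, hε, H⟩
    exact ⟨ε, hε, fun G h1 h2 h3 x hx => H G h1 h2 h3 x (hst hx)⟩
  · rintro s t ⟨ε, hε, H⟩ ⟨ε', hε', H'⟩
    refine ⟨min ε ε', lt_min hε hε', fun G h1 h2 h3 x hx => ?_⟩
    rcases hx with hx | hx
    · exact H G h1 h2 (fun z hz => (h3 z hz).trans (min_le_left _ _)) x hx
    · exact H' G h1 h2 (fun z hz => (h3 z hz).trans (min_le_right _ _)) x hx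
  · intro x hx
    obtain ⟨ε, hε, H⟩ := noNormal (h x hx).1 x.2 (h x hx).2
    refine ⟨ball x ε, mem_nhdsWithin_of_mem_nhds (ball_mem_nhds x hε), ε, hε,
      fun G h1 h2 h3 y hy => H G h1 h2 h3 y.1 y.2 ?_ ?_⟩
    · exact (le_max_left _ _).trans_lt hy
    · rw [← dist_eq_norm]; exact (le_max_right _ _).trans_lt hy

lemma dPhi_ne_zero {p : ℂ} {l : V →L[ℝ] ℝ} (hp : ‖p‖ = 1 / 2) (hl : ‖l‖ = 1)
    (h0 : l (0, p) = 0) : dPhi l p ≠ 0 := by
  intro hd
  have h1 : p.re ^ 2 + p.im ^ 2 = 1 / 4 := by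
    have := Complex.sq_norm p
    rw [hp, normSq_apply] at this
    linarith
  rw [lin_expand] at h0
  have hre := congrArg re hd
  have him := congrArg im hd
  simp only [dPhi, pow_two, sub_re, add_re, ofReal_re, mul_re, re_ofNat, im_ofNat, zero_mul,
    sub_zero, ofReal_im, mul_im, add_zero, I_re, I_im, mul_zero, one_mul, zero_add, add_im,
    zero_sub, zero_re, sub_im, zero_im] at hre him h0
  set a := l (1, 0)
  set b := l (0, 1)
  set c := l (0, I)
  have hx : |p.re| ≤ 1 / 2 := by rw [abs_le]; constructor <;> nlinarith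
  have hc : c = 0 := by
    have h2 : c * (1 / 2 + 3 * (p.re * (p.re ^ 2 - p.im ^ 2))) = 0 := by
      linear_combination (-p.re) * him + 2 * p.im * h0 - 2 * c * h1
    have h3 : |p.re * (p.re ^ 2 - p.im ^ 2)| ≤ 1 / 2 * (1 / 4) := by
      rw [abs_mul]
      gcongr
      rw [abs_le]; constructor <;> nlinarith
    rcases mul_eq_zero.1 h2 with h | h
    · exact h
    · linarith [(abs_le.1 h3).1]
  have hb : b = 0 := by
    rw [hc] at him h0
    have : b * (p.re ^ 2 + p.im ^ 2) = 0 := by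
      linear_combination p.re * h0 + p.im / 2 * him
    rw [h1] at this
    linarith
  have ha : a = 0 := by
    rw [hc, hb] at hre
    linarith
  have : l = 0 := ContinuousLinearMap.ext fun v => by
    rw [lin_expand]
    simp only [a, b, c] at ha hb hc
    simp [ha, hb, hc]
  simp [this] at hl

noncomputable def beta (l : V →L[ℝ] ℝ) : ℂ := l (0, 1) + l (0, I) * I

noncomputable def tau (A : ℂ →L[ℝ] V) : ℂ := (A I).1 * (A 1).2 - (A 1).1 * (A I).2

lemma continuous_tau : Continuous tau := by unfold tau; fun_prop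

lemma apply_tau (A : ℂ →L[ℝ] V) : A ((A I).1 - (A 1).1 * I) = (0, tau A) := by
  have : ((A I).1 : ℂ) - (A 1).1 * I = (A I).1 • (1 : ℂ) - (A 1).1 • I := by simp
  rw [this, map_sub, map_smul, map_smul]
  ext
  · simp; ring
  · simp [tau]

lemma clm_ext {E : Type*} [NormedAddCommGroup E] [NormedSpace ℝ E] {A : ℂ →L[ℝ] E}
    (h1 : A 1 = 0) (h2 : A I = 0) : A = 0 := ContinuousLinearMap.ext fun v => by
  have : v = v.re • (1 : ℂ) + v.im • I := by simp
  rw [this, map_add, map_smul, map_smul, h1, h2]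
  simp

lemma exists_normal (A : ℂ →L[ℝ] V) : ∃ l : V →L[ℝ] ℝ, l.comp A = 0 ∧ beta l = I * tau A := by
  refine ⟨mk3 (-((A 1).2.re * (A I).2.im - (A 1).2.im * (A I).2.re)) (-(tau A).im) (tau A).re,
    clm_ext ?_ ?_, ?_⟩
  · simp [tau]; ring
  · simp [tau]; ring
  · apply Complex.ext <;> simp [beta]

lemma beta_sq {A : ℂ →L[ℝ] V} {l : V →L[ℝ] ℝ} (h : l.comp A = 0) (hb : beta l ≠ 0)
    (ht : tau A ≠ 0) : beta l ^ 2 / normSq (beta l) = -(tau A ^ 2 / normSq (tau A)) := by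
  have h1 : l (0, tau A) = 0 := by
    rw [← apply_tau]
    exact congrArg (fun B : ℂ →L[ℝ] ℝ => B _) h
  rw [lin_expand] at h1
  have h2 : conj (beta l) * tau A = -(beta l * conj (tau A)) := by
    apply Complex.ext
    · simp [beta] at h1 ⊢; linarith
    · simp [beta]; ring
  have n1 : (normSq (beta l) : ℂ) ≠ 0 := by simpa using hb
  have n2 : (normSq (tau A) : ℂ) ≠ 0 := by simpa using ht
  field_simp
  rw [← mul_conj, ← mul_conj]
  linear_combination beta l * tau A * h2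

theorem no_approx : ∃ ε, 0 < ε ∧ ∀ G : ℂ → V, Good G → Imm G →
    ¬ ∀ z ∈ ball (0 : ℂ) 1, ‖G z - f0 z‖ ≤ ε := by
  classical
  let fs : V →L[ℝ] ℝ := ContinuousLinearMap.fst ℝ ℝ ℂ
  let K₁ : Set (ℂ × (V →L[ℝ] ℝ)) := closedBall 0 (1 / 2) ×ˢ {fs}
  let K₂ : Set (ℂ × (V →L[ℝ] ℝ)) :=
    (sphere 0 (1 / 2) ×ˢ sphere 0 1) ∩ {x | x.2 (0, x.1) = 0}
  have : ProperSpace (V →L[ℝ] ℝ) := FiniteDimensional.proper_real _
  have hK : IsCompact (K₁ ∪ K₂) :=
    ((isCompact_closedBall _ _).prod isCompact_singleton).union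
      (((isCompact_sphere _ _).prod (isCompact_sphere _ _)).inter_right
        (isClosed_eq (by fun_prop) continuous_const))
  obtain ⟨ε, hε, H⟩ := uniform_noNormal hK (by
    rintro ⟨p, l⟩ (⟨h1, h2⟩ | ⟨⟨h1, h2⟩, h3⟩)
    · refine ⟨closedBall_subset_ball (by norm_num) h1, ?_⟩
      have : l = fs := h2
      simp [this, dPhi, fs]
    · have h1' : ‖p‖ = 1 / 2 := by simpa using h1
      exact ⟨by simp [h1']; norm_num, dPhi_ne_zero h1' (by simpa using h2) h3⟩)
  refine ⟨ε, hε, fun G hG hI hcl => ?_⟩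
  have H1 : ∀ q ∈ closedBall (0 : ℂ) (1 / 2), ¬ IsNormal G q fs := fun q hq =>
    H G hG hI hcl (q, fs) (Or.inl ⟨hq, rfl⟩)
  have H2 : ∀ q ∈ sphere (0 : ℂ) (1 / 2), ∀ l, IsNormal G q l → l ≠ 0 → l (0, q) ≠ 0 := by
    intro q hq l hn hl h0
    have hl' : ‖l‖ ≠ 0 := norm_ne_zero_iff.2 hl
    refine H G hG hI hcl (q, ‖l‖⁻¹ • l) (Or.inr ⟨⟨hq, ?_⟩, by simp [h0]⟩) ?_
    · simp [norm_smul, hl']
    · exact hn.const_mul_left ‖l‖⁻¹
  let W : ℂ → ℂ := fun q => if h : ∃ l, IsNormal G q l ∧ beta l ≠ 0 then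
    beta h.choose ^ 2 / normSq (beta h.choose) else 0
  have hex : ∀ {P ψ}, GraphChart G P ψ → ∀ y ∈ ψ.source,
      tau (fderiv ℝ (fun y => G (ψ y)) y) ≠ 0 → ∃ l, IsNormal G (ψ y) l ∧ beta l ≠ 0 := by
    intro P ψ hch y hy ht
    obtain ⟨l, hl1, hl2⟩ := exists_normal (fderiv ℝ (fun y => G (ψ y)) y)
    exact ⟨l, (hch.isNormal_iff hy l).2 hl1, by rw [hl2]; exact mul_ne_zero I_ne_zero ht⟩
  have hW : ∀ {P ψ}, GraphChart G P ψ → ∀ y ∈ ψ.source,
      tau (fderiv ℝ (fun y => G (ψ y)) y) ≠ 0 → W (ψ y) =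
        -(tau (fderiv ℝ (fun y => G (ψ y)) y) ^ 2 /
          normSq (tau (fderiv ℝ (fun y => G (ψ y)) y))) := by
    intro P ψ hch y hy ht
    have h := hex hch y hy ht
    simp only [W, dif_pos h]
    exact beta_sq ((hch.isNormal_iff hy _).1 h.choose_spec.1) h.choose_spec.2 ht
  have hchart : ∀ q ∈ closedBall (0 : ℂ) (1 / 2), ∃ P ψ, q ∈ ψ.target ∧ GraphChart G P ψ ∧
      tau (fderiv ℝ (fun y => G (ψ y)) (ψ.symm q)) ≠ 0 := by
    intro q hq
    obtain ⟨P, ψ, h1, h2⟩ := hI q (closedBall_subset_ball (by norm_num) hq)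
    refine ⟨P, ψ, h1, h2, fun ht => H1 q hq ?_⟩
    have hy := ψ.map_target h1
    rw [← ψ.right_inv h1, h2.isNormal_iff hy]
    have h3 := h2.left_inv hy
      ((fderiv ℝ (fun y => G (ψ y)) (ψ.symm q) I).1 -
        (fderiv ℝ (fun y => G (ψ y)) (ψ.symm q) 1).1 * I)
    rw [apply_tau, ht] at h3
    have h4 : P (0, 0) = 0 := map_zero P
    rw [h4] at h3
    have h5 := congrArg re h3
    have h6 := congrArg im h3
    simp at h5 h6
    exact clm_ext (by simp [fs, h6]) (by simp [fs, ← h5])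
  have hWc : ContinuousOn W (closedBall 0 (1 / 2)) := by
    intro q hq
    obtain ⟨P, ψ, h1, h2, h3⟩ := hchart q hq
    have hy := ψ.map_target h1
    have hc : ContinuousAt (fun y => tau (fderiv ℝ (fun y => G (ψ y)) y)) (ψ.symm q) :=
      continuous_tau.continuousAt.comp
        (h2.continuousOn_fderiv.continuousAt (ψ.open_source.mem_nhds hy))
    have hc2 : ContinuousAt (fun y => W (ψ y)) (ψ.symm q) := by
      have hc3 : ContinuousAt (fun y => -(tau (fderiv ℝ (fun y => G (ψ y)) y) ^ 2 /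
          normSq (tau (fderiv ℝ (fun y => G (ψ y)) y)))) (ψ.symm q) := by
        refine ContinuousAt.neg (ContinuousAt.div (hc.pow 2) ?_ (by simpa using h3))
        exact continuous_ofReal.continuousAt.comp (continuous_normSq.continuousAt.comp hc)
      refine hc3.congr ?_
      filter_upwards [ψ.open_source.mem_nhds hy, hc.eventually_ne h3] with y hy1 hy2
      exact (hW h2 y hy1 hy2).symm
    have hc4 := ContinuousAt.comp (f := ψ.symm) hc2 (ψ.continuousAt_symm h1)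
    refine (hc4.congr ?_).continuousWithinAt
    filter_upwards [ψ.open_target.mem_nhds h1] with z hz
    simp [ψ.right_inv hz]
  have hex' : ∀ q ∈ closedBall (0 : ℂ) (1 / 2), ∃ l, IsNormal G q l ∧ beta l ≠ 0 := by
    intro q hq
    obtain ⟨P, ψ, h1, h2, h3⟩ := hchart q hq
    have := hex h2 _ (ψ.map_target h1) h3
    rwa [ψ.right_inv h1] at this
  have hWne : ∀ q ∈ closedBall (0 : ℂ) (1 / 2), W q ≠ 0 := by
    intro q hq
    have h := hex' q hq
    simp only [W, dif_pos h]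
    exact div_ne_zero (pow_ne_zero _ h.choose_spec.2) (by simpa using h.choose_spec.2)
  have L1 : HasLogOn W (sphere 0 (1 / 2)) :=
    (hasLogOn_of_convex (convex_closedBall _ _) hWc hWne).mono sphere_subset_closedBall
  have L2 : HasLogOn (fun z => W z * conj z ^ 2) (sphere 0 (1 / 2)) := by
    refine hasLogOn_slit ((hWc.mono sphere_subset_closedBall).mul (by fun_prop)) fun q hq => ?_
    have h := hex' q (sphere_subset_closedBall hq)
    simp only [W, dif_pos h]
    have hb := h.choose_spec.2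
    have h0 := H2 q hq _ h.choose_spec.1 (fun h0 => hb (by rw [h0]; simp [beta]))
    set l := h.choose
    have hn : 0 < normSq (beta l) := normSq_pos.2 hb
    have e : beta l ^ 2 / normSq (beta l) * conj q ^ 2 =
        ((normSq (beta l))⁻¹ : ℝ) * (beta l * conj q) ^ 2 := by
      push_cast; ring
    have hre : (beta l * conj q).re ≠ 0 := by
      rw [lin_expand] at h0
      simpa [beta] using h0
    rw [e, mem_slitPlane_iff]
    set u := beta l * conj q
    by_cases hu : u.im = 0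
    · left
      have : 0 < u.re * u.re := mul_self_pos.2 hre
      simp only [pow_two, mul_re, ofReal_re, ofReal_im, zero_mul, sub_zero, hu, mul_zero]
      positivity
    · right
      simp only [pow_two, mul_im, ofReal_re, ofReal_im, zero_mul, add_zero]
      refine mul_ne_zero (inv_ne_zero hn.ne') ?_
      intro h0
      have : u.re * u.im = 0 := by linarith
      exact (mul_ne_zero hre hu) this
  refine not_hasLogOn_sphere_pow 0 (r := 1 / 2) (by norm_num) two_ne_zero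
    (((hasLogOn_const (c := 1 / 16) (by norm_num) _).mul (L1.div L2)).congr fun z hz => ?_)
  have h1 : ‖z‖ = 1 / 2 := by simpa using hz
  have h2 : z * conj z = 1 / 4 := by
    rw [mul_conj, normSq_eq_norm_sq, h1]; norm_num
  have h3 := hWne z (sphere_subset_closedBall hz)
  have h4 : conj z ≠ 0 := by
    intro h0; rw [h0] at h2; norm_num at h2
  field_simp
  linear_combination (16 * (z * conj z) + 4) * h2

end Pool.Agent.MP_17e62b_gt
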