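import Pool.Agent.MP_17e62b_gt.Defs
import Pool.Agent.MP_17e62b_gt.Global

namespace Pool.Agent.MP_17e62b_gt

open Set Complex Filter Topology Metric Pool.Agent.Lib.PlaneTop
open scoped Manifold InnerProductSpace ENNReal

abbrev Disc : Type := closedBall (0 : ℂ) 1

noncomputable def J2 : ℂ ≃L[ℝ] EuclideanSpace ℝ (Fin 2) :=
  orthonormalBasisOneI.repr.toContinuousLinearEquiv

lemma J2_zero (z : ℂ) : J2 z 0 = z.re := by simp [J2]

lemma J2_symm_re (v : EuclideanSpace ℝ (Fin 2)) : (J2.symm v).re = v 0 := by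
  rw [← J2_zero, J2.apply_symm_apply]

lemma cayley_re (w : ℂ) : ((1 - w) / (1 + w)).re = (1 - ‖w‖ ^ 2) / normSq (1 + w) := by
  rw [div_re, Complex.sq_norm, normSq_apply w]
  simp only [sub_re, one_re, add_re, sub_im, one_im, add_im, zero_sub, zero_add]
  ring

lemma one_add_ne {u : ℂ} (hu : 0 ≤ u.re) : 1 + u ≠ 0 := by
  intro h
  have := congrArg re h
  simp at this
  linarith

lemma cayley_norm {u : ℂ} (hu : 0 ≤ u.re) : ‖(1 - u) / (1 + u)‖ ≤ 1 := by
  rw [norm_div, div_le_one (norm_pos_iff.2 (one_add_ne hu)), ← sq_le_sq₀ (norm_nonneg _)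
    (norm_nonneg _), Complex.sq_norm, Complex.sq_norm, normSq_apply, normSq_apply]
  simp only [sub_re, one_re, add_re, sub_im, one_im, add_im, zero_sub, zero_add]
  nlinarith

lemma cayley_cayley {u : ℂ} (hu : 1 + u ≠ 0) :
    (1 - (1 - u) / (1 + u)) / (1 + (1 - u) / (1 + u)) = u := by
  have : 1 + (1 - u) / (1 + u) = 2 / (1 + u) := by field_simp; ring
  rw [this]; field_simp; ring

noncomputable def chart1 : OpenPartialHomeomorph Disc (EuclideanHalfSpace 2) where
  toFun z := ⟨J2 ((1 - z) / (1 + z)), by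
    rw [J2_zero, cayley_re]
    have : ‖(z : ℂ)‖ ≤ 1 := mem_closedBall_zero_iff.1 z.2
    exact div_nonneg (by nlinarith [norm_nonneg (z : ℂ)]) (normSq_nonneg _)⟩
  invFun y := ⟨(1 - J2.symm y.val) / (1 + J2.symm y.val), by
    simpa using cayley_norm (by rw [J2_symm_re]; exact y.2)⟩
  source := {z | 1 + (z : ℂ) ≠ 0}
  target := univ
  map_source' _ _ := mem_univ _
  map_target' y _ := by
    have hu := one_add_ne (u := J2.symm y.val) (by rw [J2_symm_re]; exact y.2)
    have : 1 + (1 - J2.symm y.val) / (1 + J2.symm y.val) = 2 / (1 + J2.symm y.val) := by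
      field_simp; ring
    simp only [mem_setOf_eq, this]
    exact div_ne_zero two_ne_zero hu
  left_inv' z hz := by
    apply Subtype.ext
    simp only [ContinuousLinearEquiv.symm_apply_apply]
    exact cayley_cayley hz
  right_inv' y _ := by
    apply Subtype.ext
    simp only [cayley_cayley (one_add_ne (u := J2.symm y.val) (by rw [J2_symm_re]; exact y.2)),
      ContinuousLinearEquiv.apply_symm_apply]
  open_source := isOpen_ne_fun (by fun_prop) (by fun_prop)
  open_target := isOpen_univ
  continuousOn_toFun := by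
    rw [Topology.IsInducing.subtypeVal.continuousOn_iff]
    exact J2.continuous.comp_continuousOn
      (ContinuousOn.div (by fun_prop) (by fun_prop) fun z hz => hz)
  continuousOn_invFun := by
    have hval : Continuous (Subtype.val : EuclideanHalfSpace 2 → EuclideanSpace ℝ (Fin 2)) :=
      continuous_subtype_val
    refine Continuous.continuousOn (Continuous.subtype_mk ?_ _)
    exact Continuous.div (continuous_const.sub (J2.symm.continuous.comp hval))
      (continuous_const.add (J2.symm.continuous.comp hval))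
      fun y => one_add_ne (by rw [J2_symm_re]; exact y.2)

noncomputable def negD : Disc ≃ₜ Disc where
  toFun z := ⟨-z, by rw [mem_closedBall_zero_iff, norm_neg]; exact mem_closedBall_zero_iff.1 z.2⟩
  invFun z := ⟨-z, by rw [mem_closedBall_zero_iff, norm_neg]; exact mem_closedBall_zero_iff.1 z.2⟩
  left_inv z := by simp
  right_inv z := by simp
  continuous_toFun := by fun_prop
  continuous_invFun := by fun_prop

noncomputable def chart2 : OpenPartialHomeomorph Disc (EuclideanHalfSpace 2) :=
  negD.toOpenPartialHomeomorph.trans chart1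

open Classical in
@[reducible] noncomputable def discCharts : ChartedSpace (EuclideanHalfSpace 2) Disc where
  atlas := {chart1, chart2}
  chartAt z := if 1 + (z : ℂ) ≠ 0 then chart1 else chart2
  mem_chart_source z := by
    split_ifs with h
    · exact h
    · refine ⟨mem_univ _, ?_⟩
      have h' : (z : ℂ) = -1 := by linear_combination not_not.1 h
      change 1 + -(z : ℂ) ≠ 0
      rw [h']; norm_num
  chart_mem_atlas z := by split_ifs <;> simp

lemma mem_boundary_iff {M : Type*} [TopologicalSpace M] [ChartedSpace (EuclideanHalfSpace 2) M]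
    (x : M) : x ∈ (𝓡∂ 2).boundary M ↔ (chartAt (EuclideanHalfSpace 2) x x).val 0 = 0 := by
  change extChartAt (𝓡∂ 2) x x ∈ frontier (range (𝓡∂ 2)) ↔ _
  rw [frontier_range_modelWithCornersEuclideanHalfSpace]
  exact eq_comm

lemma disc_boundary (z : Disc) (hz : ‖(z : ℂ)‖ = 1) :
    z ∈ @ModelWithCorners.boundary _ _ _ _ _ _ _ (𝓡∂ 2) Disc _ discCharts := by
  letI := discCharts
  rw [mem_boundary_iff]
  change ((if 1 + (z : ℂ) ≠ 0 then chart1 else chart2) z).val 0 = 0
  split_ifs with h
  · change J2 ((1 - (z : ℂ)) / (1 + z)) 0 = 0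
    rw [J2_zero, cayley_re, hz]; simp
  · change J2 ((1 - (-z : ℂ)) / (1 + -z)) 0 = 0
    rw [J2_zero, cayley_re, norm_neg, hz]; simp

/-- the open disc inside the closed disc -/
noncomputable def jD : OpenPartialHomeomorph ℂ Disc where
  toFun z := ⟨z / max 1 ‖z‖, by
    simp only [mem_closedBall, dist_zero_right, norm_div, norm_real, Real.norm_eq_abs]
    rw [abs_of_pos (by positivity), div_le_one (by positivity)]
    exact le_max_right _ _⟩
  invFun := Subtype.val
  source := ball 0 1
  target := {x | ‖(x : ℂ)‖ < 1}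
  map_source' z hz := by
    have hz' : ‖z‖ < 1 := by simpa using hz
    simpa [max_eq_left hz'.le] using hz'
  map_target' x hx := by simpa using hx
  left_inv' z hz := by
    have hz' : ‖z‖ < 1 := by simpa using hz
    simp [max_eq_left hz'.le]
  right_inv' x hx := by
    have hz' : ‖(x : ℂ)‖ < 1 := hx
    apply Subtype.ext
    simp [max_eq_left hz'.le]
  open_source := isOpen_ball
  open_target := isOpen_lt (by fun_prop) (by fun_prop)
  continuousOn_toFun := by
    refine Continuous.continuousOn (Continuous.subtype_mk ?_ _)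
    exact Continuous.div continuous_id (by fun_prop) fun z => by
      have : (0 : ℝ) < max 1 ‖z‖ := by positivity
      exact_mod_cast this.ne'
  continuousOn_invFun := continuous_subtype_val.continuousOn

noncomputable def T3 : EuclideanSpace ℝ (Fin 3) ≃L[ℝ] V :=
  ContinuousLinearEquiv.ofFinrankEq (by simp [Module.finrank_prod])

noncomputable def S0 : Surface 3 where
  M := Disc
  top := inferInstance
  charts := discCharts
  t2 := inferInstance
  compact := inferInstance
  connected := isConnected_iff_connectedSpace.1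
    ((convex_closedBall (0 : ℂ) 1).isConnected ⟨0, by simp⟩)
  boundary_nonempty := ⟨⟨1, by simp⟩, disc_boundary _ (by simp)⟩
  f z := T3.symm (f0 z)
  continuous := T3.symm.continuous.comp (continuous_f0.comp continuous_subtype_val)

lemma S0_saddle : S0.IsSaddle := by
  rintro ν c U - ⟨⟨x, hx⟩, hU, hc, hd, h1, h2⟩
  have hsub : closure U ⊆ jD.symm.source := fun z hz => by
    have h3 : ‖(show Disc from z).val‖ ≤ 1 := mem_closedBall_zero_iff.1 (show Disc from z).2
    exact h3.lt_of_ne fun h => Set.disjoint_left.1 hd hz (disc_boundary z h)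
  have hK : IsCompact (jD.symm '' closure U) :=
    hc.image_of_continuousOn (jD.symm.continuousOn.mono hsub)
  have hcl : closure (jD.symm '' U) ⊆ jD.symm '' closure U :=
    closure_minimal (image_mono subset_closure) hK.isClosed
  have hO : IsOpen (jD.symm '' U) :=
    jD.symm.isOpen_image_of_subset_source hU (subset_closure.trans hsub)
  have := mp_f0 ((innerSL ℝ ν).comp (T3.symm : V →L[ℝ] EuclideanSpace ℝ (Fin 3))) univ _ hO
    (hK.of_isClosed_subset isClosed_closure hcl) (subset_univ _) c (fun y hy => by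
      obtain ⟨z, hz, rfl⟩ := hcl hy.1
      refine (h2 z ⟨hz, fun hzU => hy.2 ?_⟩).le
      rw [hO.interior_eq]
      exact ⟨z, hzU, rfl⟩) _ ⟨x, hx, rfl⟩
  exact absurd (h1 x hx) (not_lt.2 this)

lemma mp_of_saddle {n : ℕ} {T : Surface n} (hT : T.IsSaddle) (e : OpenPartialHomeomorph ℂ T.M)
    (l : EuclideanSpace ℝ (Fin n) →L[ℝ] ℝ) : MP e.source fun z => l (T.f (e z)) := by
  have := T.t2
  intro U hU hc hs c hfr x hx
  by_contra hcon
  set ν := (InnerProductSpace.toDual ℝ _).symm l with hν
  have hl : ∀ v, ⟪ν, v⟫_ℝ = l v := fun v => InnerProductSpace.toDual_symm_apply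
  have hν0 : ν ≠ 0 := by
    intro h0
    have hl0 : ∀ v, l v = 0 := fun v => by rw [← hl, h0, inner_zero_left]
    obtain ⟨y, hy⟩ : (frontier U).Nonempty := by
      refine nonempty_frontier_iff.2 ⟨⟨x, hx⟩, fun h => ?_⟩
      rw [h, closure_univ] at hc
      exact noncompact_univ ℂ hc
    have := hfr y hy
    simp only [hl0] at this hcon
    exact hcon this
  have hF : ContinuousOn (fun z => l (T.f (e z))) e.source :=
    (l.continuous.comp T.continuous).comp_continuousOn e.continuousOn
  set U' := U ∩ (fun z => l (T.f (e z))) ⁻¹' Ioi c with hU'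
  have hU'o : IsOpen U' := (hF.mono (subset_closure.trans hs)).isOpen_inter_preimage hU isOpen_Ioi
  have hcU' : closure U' ⊆ closure U := closure_mono inter_subset_left
  have hK : IsCompact (e '' closure U') :=
    (hc.of_isClosed_subset isClosed_closure hcU').image_of_continuousOn
      (e.continuousOn.mono (hcU'.trans hs))
  have hcl : closure (e '' U') ⊆ e '' closure U' :=
    closure_minimal (image_mono subset_closure) hK.isClosed
  refine hT ν c (e '' U') hν0 ⟨⟨_, x, ⟨hx, not_le.1 hcon⟩, rfl⟩,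
    e.isOpen_image_of_subset_source hU'o (subset_closure.trans (hcU'.trans hs)),
    hK.of_isClosed_subset isClosed_closure hcl, ?_, ?_, ?_⟩
  · refine Set.disjoint_left.2 fun y hy hb => ?_
    obtain ⟨z, hz, rfl⟩ := hcl hy
    rw [mem_boundary_iff] at hb
    exact not_boundary (e.trans (chartAt (EuclideanHalfSpace 2) (e z))) (z₀ := z)
      ⟨hs (hcU' hz), mem_chart_source _ _⟩ hb
  · rintro _ ⟨z, hz, rfl⟩
    rw [hl]; exact hz.2
  · rintro y ⟨hy1, hy2⟩
    obtain ⟨z, hz, rfl⟩ := hcl hy1
    rw [hl]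
    apply le_antisymm
    · by_cases hzU : z ∈ U
      · by_contra h
        exact hy2 ⟨z, ⟨hzU, not_le.1 h⟩, rfl⟩
      · exact hfr z ⟨hcU' hz, by rwa [hU.interior_eq]⟩
    · exact ContinuousWithinAt.closure_le hz continuousWithinAt_const
        ((hF z (hs (hcU' hz))).mono (subset_closure.trans (hcU'.trans hs))) fun w hw => hw.2.le

/-- the interior of the half plane -/
noncomputable def iH : OpenPartialHomeomorph (EuclideanSpace ℝ (Fin 2)) (EuclideanHalfSpace 2) where
  toFun := (𝓡∂ 2).symm
  invFun := Subtype.val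
  source := {v | 0 < v 0}
  target := {y | 0 < y.val 0}
  map_source' v hv := by
    have : ((𝓡∂ 2).symm v).val = v :=
      (𝓡∂ 2).right_inv (by rw [range_modelWithCornersEuclideanHalfSpace]; exact le_of_lt (show (0 : ℝ) < v 0 from hv))
    change 0 < ((𝓡∂ 2).symm v).val 0
    rw [this]; exact hv
  map_target' y hy := hy
  left_inv' v hv :=
    (𝓡∂ 2).right_inv (by rw [range_modelWithCornersEuclideanHalfSpace]; exact le_of_lt (show (0 : ℝ) < v 0 from hv))
  right_inv' y _ := (𝓡∂ 2).left_inv y
  open_source := isOpen_lt (by fun_prop) (by fun_prop)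
  open_target := by
    have hval : Continuous (Subtype.val : EuclideanHalfSpace 2 → EuclideanSpace ℝ (Fin 2)) :=
      continuous_subtype_val
    exact isOpen_lt continuous_const (by fun_prop)
  continuousOn_toFun := (𝓡∂ 2).continuous_symm.continuousOn
  continuousOn_invFun := continuous_subtype_val.continuousOn

lemma imm_of {T : Surface 3} {k : ℕ} (hk : 1 ≤ k) (hT : T.IsImmersion k)
    (e : OpenPartialHomeomorph ℂ T.M) {q : ℂ} (hq : q ∈ e.source) :
    ∃ P ψ, q ∈ ψ.target ∧ GraphChart (fun z => T3 (T.f (e z))) P ψ := by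
  set x := e q with hx
  set c := chartAt (EuclideanHalfSpace 2) x with hc
  have hxc : x ∈ c.source := mem_chart_source _ _
  have hpos : 0 < (c x).val 0 :=
    lt_of_le_of_ne (c x).2 (not_boundary (e.trans c) (z₀ := q) ⟨hq, hxc⟩).symm
  set ψ : OpenPartialHomeomorph ℂ ℂ :=
    J2.toHomeomorph.toOpenPartialHomeomorph.trans (iH.trans (c.symm.trans e.symm)) with hψ
  set y₀ := J2.symm (c x).val with hy₀
  have hJ : J2 y₀ = (c x).val := J2.apply_symm_apply _
  have hI : (𝓡∂ 2).symm (c x).val = c x := (𝓡∂ 2).left_inv _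
  have hψa : ∀ y, ψ y = e.symm (c.symm ((𝓡∂ 2).symm (J2 y))) := fun _ => rfl
  have hψs : ∀ y, y ∈ ψ.source ↔ 0 < J2 y 0 ∧ (𝓡∂ 2).symm (J2 y) ∈ c.target ∧
      c.symm ((𝓡∂ 2).symm (J2 y)) ∈ e.target := fun y => by
    simp only [hψ, OpenPartialHomeomorph.trans_source, Homeomorph.toOpenPartialHomeomorph_source,
      univ_inter, mem_preimage, mem_inter_iff]
    rfl
  have hy : y₀ ∈ ψ.source := by
    rw [hψs, hJ, hI, c.left_inv hxc]
    exact ⟨hpos, c.map_source hxc, e.map_source hq⟩
  have hψy : ψ y₀ = q := by rw [hψa, hJ, hI, c.left_inv hxc, e.left_inv hq]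
  have hr : range (𝓡∂ 2) ∈ 𝓝 (extChartAt (𝓡∂ 2) x x) := by
    rw [← mem_interior_iff_mem_nhds, interior_range_modelWithCornersEuclideanHalfSpace]
    exact hpos
  have hcd : ContDiffAt ℝ 1 (T.f ∘ (extChartAt (𝓡∂ 2) x).symm) (extChartAt (𝓡∂ 2) x x) :=
    (((contMDiffAt_iff.1 (hT.2.1 x)).2).contDiffAt hr).of_le (by exact_mod_cast hk)
  have hinj : Function.Injective
      (fderiv ℝ (T.f ∘ (extChartAt (𝓡∂ 2) x).symm) (extChartAt (𝓡∂ 2) x x)) := by
    have h1 := hT.2.2 x
    rw [((hT.2.1 x).mdifferentiableAt (by exact_mod_cast (by omega : k ≠ 0))).mfderiv,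
      fderivWithin_of_mem_nhds hr] at h1
    exact h1
  have hJ' : J2 y₀ = extChartAt (𝓡∂ 2) x x := hJ
  have heq : (fun y => T3 (T.f (e (ψ y)))) =ᶠ[𝓝 y₀]
      fun y => T3 ((T.f ∘ (extChartAt (𝓡∂ 2) x).symm) (J2 y)) := by
    filter_upwards [ψ.open_source.mem_nhds hy] with y hy'
    rw [hψa, e.right_inv ((hψs y).1 hy').2.2]
    rfl
  rw [← hJ'] at hcd hinj
  have hd : HasFDerivAt (fun y => T3 ((T.f ∘ (extChartAt (𝓡∂ 2) x).symm) (J2 y))) _ y₀ :=
    T3.hasFDerivAt.comp y₀ ((hcd.differentiableAt one_ne_zero).hasFDerivAt.comp y₀ J2.hasFDerivAt)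
  rw [← hψy]
  refine graphChart_of ψ hy ?_ ?_
  · exact (T3.contDiff.contDiffAt.comp y₀ (hcd.comp y₀ J2.contDiff.contDiffAt)).congr_of_eventuallyEq
      heq
  · rw [(hd.congr_of_eventuallyEq heq).fderiv]
    exact T3.injective.comp (hinj.comp J2.injective)

theorem main : ∃ S : Surface 3, S.IsSaddle ∧ ∃ ε : ℝ≥0∞, 0 < ε ∧
    ∀ k : ℕ, 1 ≤ k → ∀ T : Surface 3, T.IsImmersion k → T.IsSaddle → ε ≤ frechetDist S T := by
  obtain ⟨ε, hε, H⟩ := no_approx
  set C := ‖(T3 : EuclideanSpace ℝ (Fin 3) →L[ℝ] V)‖ + 1 with hC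
  have hCp : 0 < C := by positivity
  refine ⟨S0, S0_saddle, ENNReal.ofReal (ε / C), ENNReal.ofReal_pos.2 (by positivity),
    fun k hk T hT hs => le_iInf fun h => ?_⟩
  by_contra hcon
  set e : OpenPartialHomeomorph ℂ T.M := jD.trans h.toOpenPartialHomeomorph with he
  have hes : e.source = ball 0 1 := by
    rw [he, OpenPartialHomeomorph.trans_source]
    exact inter_univ _
  refine H (fun z => T3 (T.f (e z))) ⟨?_, fun l => ?_⟩ (fun q hq => imm_of hk hT e (hes ▸ hq))
    fun z hz => ?_
  · exact (T3.continuous.comp T.continuous).comp_continuousOn (hes ▸ e.continuousOn)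
  · exact hes ▸ mp_of_saddle hs e (l.comp (T3 : EuclideanSpace ℝ (Fin 3) →L[ℝ] V))
  · have h1 := (le_iSup (fun x : S0.M => edist (S0.f x) (T.f (h x))) (jD z)).trans_lt
      (not_le.1 hcon)
    rw [edist_lt_ofReal, dist_comm, dist_eq_norm] at h1
    have h2 : S0.f (jD z) = T3.symm (f0 z) := by
      change T3.symm (f0 (jD.symm (jD z))) = _
      rw [jD.left_inv hz]
    have h3 : T3 (T.f (e z)) - f0 z =
        (T3 : EuclideanSpace ℝ (Fin 3) →L[ℝ] V) (T.f (h (jD z)) - S0.f (jD z)) := by
      rw [h2]; simp [he]; rfl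
    rw [h3]
    refine (ContinuousLinearMap.le_opNorm _ _).trans ?_
    rw [lt_div_iff₀ hCp] at h1
    nlinarith [norm_nonneg (T.f (h (jD z)) - S0.f (jD z))]

end Pool.Agent.MP_17e62b_gt
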