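import Pool.Agent.MP_17e62b_gt.Model

namespace Pool.Agent.MP_17e62b_gt

open Set Complex Filter Topology Metric

def Good (G : ℂ → V) : Prop :=
  ContinuousOn G (ball 0 1) ∧ ∀ l : V →L[ℝ] ℝ, MP (ball 0 1) fun z => l (G z)

def Ridge (G : ℂ → V) (q : ℂ) (l : V →L[ℝ] ℝ) : Prop :=
  ∃ (ψ : OpenPartialHomeomorph ℂ ℂ) (κ : V →L[ℝ] ℝ), (0 : ℂ) ∈ ψ.source ∧ ψ 0 = q ∧
    (∀ w ∈ ψ.source, κ (G (ψ w)) - κ (G q) = w.im) ∧
    (∀ᶠ t : ℝ in 𝓝[≠] 0, l (G q) < l (G (ψ t))) ∧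
    ∀ δ : ℝ, 0 < δ → ∀ᶠ s : ℝ in 𝓝[≠] 0, l (G (ψ (s * I))) - l (G q) < δ * |s|

lemma MP.comp {Ω : Set ℂ} {F : ℂ → ℝ} (h : MP Ω F) (Ψ : OpenPartialHomeomorph ℂ ℂ)
    (hΨ : Ψ.target ⊆ Ω) : MP Ψ.source fun z => F (Ψ z) := by
  intro U hU hc hs c hfr x hx
  have hUs : U ⊆ Ψ.source := subset_closure.trans hs
  have hK : IsCompact (Ψ '' closure U) := hc.image_of_continuousOn (Ψ.continuousOn.mono hs)
  have hcl : closure (Ψ '' U) ⊆ Ψ '' closure U :=
    closure_minimal (image_mono subset_closure) hK.isClosed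
  have hO : IsOpen (Ψ '' U) := Ψ.isOpen_image_of_subset_source hU hUs
  refine h (Ψ '' U) hO (hK.of_isClosed_subset isClosed_closure hcl)
    (hcl.trans ?_) c (fun y hy => ?_) _ ⟨x, hx, rfl⟩
  · rintro _ ⟨z, hz, rfl⟩
    exact hΨ (Ψ.map_source (hs hz))
  · obtain ⟨z, hz, rfl⟩ := hcl hy.1
    refine hfr z ⟨hz, fun hzU => hy.2 ?_⟩
    rw [hO.interior_eq]
    exact ⟨z, interior_subset hzU, rfl⟩

lemma capData_of {F : ℂ → V} {R a b c : ℝ} (hR : 0 < R) (hF : ContinuousOn F (crect (-R) R R))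
    (m : V →L[ℝ] ℝ) (ha : -R < a) (hab : a < b) (hbc : b < c) (hc : c < R)
    (h1 : m (F c) = m (F a)) (h2 : m (F a) < m (F b)) :
    ∃ η₁, 0 < η₁ ∧ ∀ η, 0 < η → η ≤ η₁ → η ≤ R → ∃ ε₁, 0 < ε₁ ∧ ∀ ε, 0 < ε → ε ≤ ε₁ →
      ∀ (Ω : Set ℂ) (G : ℂ → V) (l : V →L[ℝ] ℝ) (k : ℝ), ContinuousOn G (crect a c η) →
        (∀ m' : V →L[ℝ] ℝ, MP Ω fun z => m' (G z)) → (∀ z ∈ crect a c η, ‖G z - F z‖ ≤ ε) →
        CapData Ω (fun z => l (G z) - k) a c η ε := by
  set δ₀ := m (F b) - m (F a) with hδ₀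
  have hδ₀p : 0 < δ₀ := by linarith
  have hmF : ContinuousOn (fun z => m (F z)) (crect (-R) R R) :=
    m.continuous.comp_continuousOn hF
  have huc := (isCompact_crect (-R) R R).uniformContinuousOn_of_continuous hmF
  obtain ⟨r, hr, hr'⟩ := Metric.uniformContinuousOn_iff.1 huc (δ₀ / 4) (by linarith)
  obtain ⟨C, hC⟩ := (isCompact_crect (-R) R R).exists_bound_of_continuousOn hmF
  refine ⟨r / 2, by linarith, fun η hη hη1 hηR => ?_⟩
  have hsub : crect a c η ⊆ crect (-R) R R := fun z hz =>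
    ⟨by linarith [hz.1], by linarith [hz.2.1], by linarith [hz.2.2.1], by linarith [hz.2.2.2]⟩
  have hnear : ∀ z ∈ crect a c η, |m (F z) - m (F z.re)| < δ₀ / 4 := fun z hz => by
    refine hr' z (hsub hz) z.re ⟨by simpa using (hsub hz).1, by simpa using (hsub hz).2.1,
      by simp [hR.le], by simp [hR.le]⟩ ?_
    have : z - z.re = z.im * I := by apply Complex.ext <;> simp
    rw [dist_eq_norm, this]
    simp only [Complex.norm_mul, norm_real, Real.norm_eq_abs, norm_I, mul_one]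
    exact (abs_le.2 ⟨hz.2.2.1, hz.2.2.2⟩).trans_lt (by linarith)
  set B := |C| + |m (F a)| with hB
  have hB0 : 0 ≤ B := by positivity
  set τ := (B + 1) / (η / 2) with hτ
  have hτp : 0 < τ := by positivity
  refine ⟨min (η / 2) (min (δ₀ / (8 * (‖m‖ + 1))) (δ₀ / 4 / (2 * τ + 1))), by positivity,
    fun ε hε hε1 Ω G l k hG hmp hcl => ?_⟩
  have e1 : ε ≤ η / 2 := hε1.trans (min_le_left _ _)
  have e2 : ε ≤ δ₀ / (8 * (‖m‖ + 1)) := hε1.trans ((min_le_right _ _).trans (min_le_left _ _))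
  have e3 : ε ≤ δ₀ / 4 / (2 * τ + 1) := hε1.trans ((min_le_right _ _).trans (min_le_right _ _))
  have hm : ∀ z ∈ crect a c η, |m (G z) - m (F z)| ≤ δ₀ / 8 := fun z hz => by
    rw [← map_sub]
    refine (m.le_opNorm _).trans ?_
    rw [le_div_iff₀ (by positivity)] at e2
    nlinarith [hcl z hz, norm_nonneg m, norm_nonneg (G z - F z)]
  refine ⟨fun z => m (G z) - (m (F a) + 5 * δ₀ / 8), b, δ₀ / 4, B, τ, hab, hbc,
    (m.continuous.comp_continuousOn hG).sub continuousOn_const, hτp,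
    (hmp (m + τ • l)).add_const (-(m (F a) + 5 * δ₀ / 8) - τ * k) (fun z => by simp; ring),
    (hmp (m - τ • l)).add_const (-(m (F a) + 5 * δ₀ / 8) + τ * k) (fun z => by simp; ring),
    fun z hz hre => ?_, fun z hz hre => ?_, fun z hz => ?_, ?_, ?_⟩
  · have a1 := abs_lt.1 (hnear z hz)
    have a2 := abs_le.1 (hm z hz)
    rcases hre with h | h <;> rw [h] at a1 <;> simp only <;> linarith [a1.2, a2.2]
  · have a1 := abs_lt.1 (hnear z hz)
    have a2 := abs_le.1 (hm z hz)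
    rw [hre] at a1
    simp only
    linarith [a1.1, a2.1]
  · have a2 := abs_le.1 (hm z hz)
    have a3 := (le_abs_self _).trans ((hC z (hsub hz)).trans (le_abs_self C))
    simp only
    linarith [a2.2, neg_abs_le (m (F a))]
  · rw [le_div_iff₀ (by positivity)] at e3
    nlinarith
  · have : τ * (η / 2) = B + 1 := by rw [hτ]; field_simp
    nlinarith

theorem noRidge {p : ℂ} (hp : p ∈ ball (0 : ℂ) 1) (l : V →L[ℝ] ℝ) (hd : dPhi l p ≠ 0) :
    ∃ ε, 0 < ε ∧ ∀ G : ℂ → V, Good G → (∀ z ∈ ball (0 : ℂ) 1, ‖G z - f0 z‖ ≤ ε) →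
      ∀ (q : ℂ) (l' : V →L[ℝ] ℝ), dist q p < ε → ‖l' - l‖ < ε → ¬ Ridge G q l' := by
  have hs : HasStrictDerivAt (fun z => I * (Phi l z - Phi l p)) (I * dPhi l p) p := by
    have := HasStrictDerivAt.const_mul I
      ((hasStrictDerivAt_Phi l p).sub (hasStrictDerivAt_const p (Phi l p)))
    rw [sub_zero] at this
    exact this
  have hs' := hs.hasStrictFDerivAt_equiv (mul_ne_zero I_ne_zero hd)
  set e := (hs'.toOpenPartialHomeomorph _).restrOpen (ball 0 1) isOpen_ball with he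
  have hpe : p ∈ e.source := ⟨hs'.mem_toOpenPartialHomeomorph_source, hp⟩
  have hee : ∀ z, e z = I * (Phi l z - Phi l p) := fun _ => rfl
  have hep : e p = 0 := by simp [hee]
  have hes : e.source ⊆ ball 0 1 := fun z hz => hz.2
  have h0t : (0 : ℂ) ∈ e.target := hep ▸ e.map_source hpe
  have him : ∀ ζ ∈ e.target, l (f0 (e.symm ζ)) - l (f0 p) = ζ.im := fun ζ hζ => by
    have := congrArg im (e.right_inv hζ)
    rw [hee] at this
    rw [l_f0, l_f0, ← this]
    simp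
  obtain ⟨r, hr, hball⟩ := Metric.nhds_basis_closedBall.mem_iff.1 (e.open_target.mem_nhds h0t)
  set R := r / 2 with hR
  have hRp : 0 < R := by positivity
  have hcr : crect (-R) R R ⊆ e.target := fun z hz => hball (by
    simp only [mem_closedBall, dist_zero_right]
    linarith [norm_le_abs_re_add_abs_im z, abs_le.2 ⟨hz.1, hz.2.1⟩, abs_le.2 hz.2.2])
  have hF : ContinuousOn (fun ζ => f0 (e.symm ζ)) (crect (-R) R R) :=
    continuous_f0.comp_continuousOn (e.continuousOn_symm.mono hcr)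
  have hinj : InjOn (fun t : ℝ => e.symm t) (Ioo (-R) R) := fun t ht s hs h => by
    have := e.symm.injOn
      (hcr ⟨by simpa using ht.1.le, by simpa using ht.2.le, by simp [hRp.le], by simp [hRp.le]⟩)
      (hcr ⟨by simpa using hs.1.le, by simpa using hs.2.le, by simp [hRp.le], by simp [hRp.le]⟩) h
    exact_mod_cast this
  obtain ⟨a, b, c, m, k1, k2, k3, k4, k5, k6⟩ := exists_cap hRp
    (hinj.mono (Ioo_subset_Ioo (by linarith) le_rfl))
  obtain ⟨a', b', c', m', k1', k2', k3', k4', k5', k6'⟩ := exists_cap (neg_lt_zero.2 hRp)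
    (hinj.mono (Ioo_subset_Ioo le_rfl hRp.le))
  obtain ⟨η₁, hη₁, H₁⟩ := capData_of hRp hF m (by linarith) k2 k3 k4 k5 k6
  obtain ⟨η₂, hη₂, H₂⟩ := capData_of hRp hF m' k1' k2' k3' (by linarith) k5' k6'
  set η := min R (min η₁ η₂) with hη
  have hηp : 0 < η := by positivity
  have hηR : η ≤ R := min_le_left _ _
  obtain ⟨ε₁, hε₁, H₁⟩ := H₁ η hηp ((min_le_right _ _).trans (min_le_left _ _)) hηR
  obtain ⟨ε₂, hε₂, H₂⟩ := H₂ η hηp ((min_le_right _ _).trans (min_le_right _ _)) hηR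
  set εL := min (η / 2) (min ε₁ ε₂) with hεL
  have hεLp : 0 < εL := by positivity
  have hεLη : εL < η := (min_le_left _ _).trans_lt (by linarith)
  obtain ⟨C, hC⟩ := (isCompact_closedBall (0 : ℂ) 1).exists_bound_of_continuousOn
    continuous_f0.continuousOn
  have hC0 : 0 ≤ C := (norm_nonneg _).trans (hC 0 (by simp))
  have hnb : (e.source ∩ e ⁻¹' (orect (-R) R η ∩ {z | c' < z.re ∧ z.re < a})) ∩
      {z | |l (f0 z) - l (f0 p)| < εL / 2} ∈ 𝓝 p := by
    refine inter_mem (inter_mem (e.open_source.mem_nhds hpe)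
      ((e.continuousAt hpe).preimage_mem_nhds ?_)) ?_
    · refine IsOpen.mem_nhds ((isOpen_orect _ _ _).inter ?_) ?_
      · simp only [setOf_and]
        exact (isOpen_lt (by fun_prop) (by fun_prop)).inter (isOpen_lt (by fun_prop) (by fun_prop))
      · rw [hep]
        exact ⟨⟨by simpa, by simpa, by simpa, by simpa⟩, by simpa, by simpa⟩
    · have := continuous_f0
      exact (isOpen_lt (by fun_prop) (by fun_prop)).mem_nhds (by simpa)
  obtain ⟨ρ, hρ, hρ'⟩ := Metric.mem_nhds_iff.1 hnb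
  refine ⟨min ρ (min 1 (min εL (εL / (4 * (C + 1 + ‖l‖))))), by positivity,
    fun G hG hcl q l' hq hl' => ?_⟩
  set ε := min ρ (min 1 (min εL (εL / (4 * (C + 1 + ‖l‖))))) with hε
  have hεp : 0 < ε := by positivity
  have e1 : ε ≤ ρ := min_le_left _ _
  have e2 : ε ≤ 1 := (min_le_right _ _).trans (min_le_left _ _)
  have e3 : ε ≤ εL := (min_le_right _ _).trans ((min_le_right _ _).trans (min_le_left _ _))
  have e4 : ε ≤ εL / (4 * (C + 1 + ‖l‖)) :=
    (min_le_right _ _).trans ((min_le_right _ _).trans (min_le_right _ _))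
  rintro ⟨ψ, κ, r1, r2, r3, r4, r5⟩
  have hq' := hρ' (hq.trans_le e1)
  have hsub : crect (-R) R η ⊆ e.target := fun z hz =>
    hcr ⟨hz.1, hz.2.1, by linarith [hz.2.2.1], by linarith [hz.2.2.2]⟩
  have hG' : ContinuousOn (fun ζ => G (e.symm ζ)) (crect (-R) R η) :=
    hG.1.comp (e.continuousOn_symm.mono hsub) fun z hz => hes (e.map_target (hsub hz))
  have hmp : ∀ m' : V →L[ℝ] ℝ, MP e.target fun ζ => m' (G (e.symm ζ)) := fun m' =>
    (hG.2 m').comp e.symm hes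
  have hclose : ∀ ζ ∈ crect (-R) R η, ‖G (e.symm ζ) - f0 (e.symm ζ)‖ ≤ εL := fun ζ hζ =>
    (hcl _ (hes (e.map_target (hsub hζ)))).trans e3
  have hsR : crect a c η ⊆ crect (-R) R η := fun z hz =>
    ⟨by linarith [hz.1], by linarith [hz.2.1], hz.2.2⟩
  have hsL : crect a' c' η ⊆ crect (-R) R η := fun z hz =>
    ⟨by linarith [hz.1], by linarith [hz.2.1], hz.2.2⟩
  have hpt : ∀ z ∈ ball (0 : ℂ) 1, |l' (G z) - l (f0 z)| ≤ εL / 4 := fun z hz => by
    have b1 : l' (G z) - l (f0 z) = (l' - l) (G z) + l (G z - f0 z) := by simp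
    have b2 : ‖G z‖ ≤ C + 1 := by
      have := norm_add_le (f0 z) (G z - f0 z)
      rw [add_sub_cancel] at this
      linarith [hC z (ball_subset_closedBall hz), hcl z hz]
    have b3 : |(l' - l) (G z)| ≤ ε * (C + 1) :=
      ((l' - l).le_opNorm _).trans (mul_le_mul hl'.le b2 (norm_nonneg _) hεp.le)
    have b4 : |l (G z - f0 z)| ≤ ‖l‖ * ε :=
      (l.le_opNorm _).trans (mul_le_mul_of_nonneg_left (hcl z hz) (norm_nonneg _))
    rw [le_div_iff₀ (by positivity)] at e4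
    rw [b1]
    refine (abs_add_le _ _).trans ?_
    nlinarith
  have hψe : ∀ᶠ w in 𝓝 (0 : ℂ), ψ w ∈ e.source :=
    (ψ.continuousAt r1).preimage_mem_nhds (e.open_source.mem_nhds (r2 ▸ hq'.1.1))
  refine noRidge_rect (Ω := e.target) (L := fun ζ => l' (G (e.symm ζ)) - l' (G q))
    (K := fun ζ => κ (G (e.symm ζ)) - κ (G q)) hεLp hεLη hsub
    ((l'.continuous.comp_continuousOn hG').sub continuousOn_const)
    ((hmp l').add_const (-l' (G q)) fun z => by ring) (fun ζ hζ => ?_)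
    (H₂ εL hεLp ((min_le_right _ _).trans (min_le_right _ _)) _ _ l' _ (hG'.mono hsL) hmp
      fun z hz => hclose z (hsL hz))
    (H₁ εL hεLp ((min_le_right _ _).trans (min_le_left _ _)) _ _ l' _ (hG'.mono hsR) hmp
      fun z hz => hclose z (hsR hz))
    k1' k4 ((κ.continuous.comp_continuousOn hG').sub continuousOn_const)
    (fun δ => (hmp (δ • κ - l')).add_const (-δ * κ (G q) + l' (G q)) fun z => by simp; ring)
    (ψ.trans e) ⟨r1, by simpa [r2] using hq'.1.1⟩ (by simpa [r2] using hq'.1.2.1)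
    (by simpa [r2] using hq'.1.2.2.1) (by simpa [r2] using hq'.1.2.2.2)
    (by simp [r2, e.left_inv hq'.1.1]) (fun w hw => ?_) ?_ (fun δ hδ => ?_)
  · rw [← him ζ (hsub hζ)]
    have c1 := abs_le.1 (hpt _ (hes (e.map_target (hsub hζ))))
    have c2 := abs_le.1 (hpt _ (hes hq'.1.1))
    have c3 := abs_lt.1 (show |l (f0 q) - l (f0 p)| < εL / 2 from hq'.2)
    rw [abs_le]
    constructor <;> linarith [c1.1, c1.2, c2.1, c2.2, c3.1, c3.2]
  · have hw2 : ψ w ∈ e.source := by simpa using hw.2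
    simp only [OpenPartialHomeomorph.coe_trans, Function.comp_apply, e.left_inv hw2]
    exact r3 w hw.1
  · have h1 : ∀ᶠ t : ℝ in 𝓝[≠] 0, ψ t ∈ e.source :=
      nhdsWithin_le_nhds ((continuous_ofReal.tendsto' 0 0 (by simp)).eventually hψe)
    filter_upwards [h1, r4] with t ht1 ht2
    simp only [OpenPartialHomeomorph.coe_trans, Function.comp_apply, e.left_inv ht1]
    linarith
  · have h1 : ∀ᶠ t : ℝ in 𝓝[≠] 0, ψ (t * I) ∈ e.source :=
      nhdsWithin_le_nhds (((by fun_prop : Continuous fun t : ℝ => (t : ℂ) * I).tendsto' 0 0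
        (by simp)).eventually hψe)
    filter_upwards [h1, r5 δ hδ] with t ht1 ht2
    simp only [OpenPartialHomeomorph.coe_trans, Function.comp_apply, e.left_inv ht1]
    exact ht2

end Pool.Agent.MP_17e62b_gt
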