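import Pool.Agent.Lib.PlaneTop.Jump

/-!
The cap lemma: functions satisfying maximum principles on a rectangle, close to a model, have
connected positivity sets, and therefore no ridge.
-/

namespace Pool.Agent.MP_17e62b_gt

open Set Complex Filter Topology Pool.Agent.Lib.PlaneTop

/-- maximum principle on relatively compact open subsets of `Ω` -/
def MP (Ω : Set ℂ) (F : ℂ → ℝ) : Prop :=
  ∀ V : Set ℂ, IsOpen V → IsCompact (closure V) → closure V ⊆ Ω →
    ∀ c : ℝ, (∀ x ∈ frontier V, F x ≤ c) → ∀ x ∈ V, F x ≤ c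

lemma MP.mono {Ω Ω' : Set ℂ} {F : ℂ → ℝ} (h : MP Ω F) (hΩ : Ω' ⊆ Ω) : MP Ω' F :=
  fun V h1 h2 h3 => h V h1 h2 (h3.trans hΩ)

lemma MP.add_const {Ω : Set ℂ} {F F' : ℂ → ℝ} (h : MP Ω F) (k : ℝ) (hF : ∀ z, F' z = F z + k) :
    MP Ω F' := fun V h1 h2 h3 c hc x hx => by
  have := h V h1 h2 h3 (c - k) (fun y hy => by have := hc y hy; rw [hF] at this; linarith) x hx
  rw [hF]; linarith

def orect (a c η : ℝ) : Set ℂ := {z | a < z.re ∧ z.re < c ∧ -η < z.im ∧ z.im < η}
def crect (a c η : ℝ) : Set ℂ := {z | a ≤ z.re ∧ z.re ≤ c ∧ -η ≤ z.im ∧ z.im ≤ η}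

lemma isOpen_orect (a c η : ℝ) : IsOpen (orect a c η) := by
  simp only [orect, setOf_and]
  exact (isOpen_lt (by fun_prop) (by fun_prop)).inter ((isOpen_lt (by fun_prop) (by fun_prop)).inter
    ((isOpen_lt (by fun_prop) (by fun_prop)).inter (isOpen_lt (by fun_prop) (by fun_prop))))

lemma isClosed_crect (a c η : ℝ) : IsClosed (crect a c η) := by
  simp only [crect, setOf_and]
  exact (isClosed_le (by fun_prop) (by fun_prop)).inter
    ((isClosed_le (by fun_prop) (by fun_prop)).inter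
    ((isClosed_le (by fun_prop) (by fun_prop)).inter (isClosed_le (by fun_prop) (by fun_prop))))

lemma isCompact_crect (a c η : ℝ) : IsCompact (crect a c η) := by
  refine Metric.isCompact_of_isClosed_isBounded (isClosed_crect a c η) ?_
  refine (Metric.isBounded_closedBall (x := (0 : ℂ)) (r := |a| + |c| + η)).subset fun y hy => ?_
  simp only [Metric.mem_closedBall, dist_zero_right]
  refine (norm_le_abs_re_add_abs_im y).trans (add_le_add ?_ (abs_le.2 ⟨hy.2.2.1, hy.2.2.2⟩))
  rw [abs_le]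
  constructor <;> linarith [hy.1, hy.2.1, neg_abs_le a, le_abs_self c, abs_nonneg a, abs_nonneg c]

lemma orect_subset (a c η : ℝ) : orect a c η ⊆ crect a c η :=
  fun _ h => ⟨h.1.le, h.2.1.le, h.2.2.1.le, h.2.2.2.le⟩

lemma closure_subset_crect {a c η : ℝ} {V : Set ℂ} (h : V ⊆ orect a c η) :
    closure V ⊆ crect a c η :=
  closure_minimal (h.trans (orect_subset a c η)) (isClosed_crect a c η)

lemma isCompact_closure_of {a c η : ℝ} {V : Set ℂ} (h : V ⊆ orect a c η) :
    IsCompact (closure V) :=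
  (isCompact_crect a c η).of_isClosed_subset isClosed_closure (closure_subset_crect h)

lemma crect_cases {a c η : ℝ} {z : ℂ} (h : z ∈ crect a c η) :
    z ∈ orect a c η ∨ z.re = a ∨ z.re = c ∨ z.im = -η ∨ z.im = η := by
  obtain ⟨h1, h2, h3, h4⟩ := h
  rcases h1.eq_or_lt with h1 | h1
  · exact Or.inr (Or.inl h1.symm)
  rcases h2.eq_or_lt with h2 | h2
  · exact Or.inr (Or.inr (Or.inl h2))
  rcases h3.eq_or_lt with h3 | h3
  · exact Or.inr (Or.inr (Or.inr (Or.inl h3.symm)))
  rcases h4.eq_or_lt with h4 | h4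
  · exact Or.inr (Or.inr (Or.inr (Or.inr h4)))
  exact Or.inl ⟨h1, h2, h3, h4⟩

lemma convex_box (a c d e : ℝ) :
    Convex ℝ {z : ℂ | a < z.re ∧ z.re < c ∧ d < z.im ∧ z.im < e} := by
  simp only [setOf_and]
  exact (convex_halfSpace_re_gt a).inter ((convex_halfSpace_re_lt c).inter
    ((convex_halfSpace_im_gt d).inter (convex_halfSpace_im_lt e)))

lemma convex_crect (a c η : ℝ) : Convex ℝ (crect a c η) := by
  simp only [crect, setOf_and]
  exact (convex_halfSpace_re_ge a).inter ((convex_halfSpace_re_le c).inter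
    ((convex_halfSpace_im_ge _).inter (convex_halfSpace_im_le _)))

lemma mem_comp_of_closure {O : Set ℂ} (hO : IsOpen O) {x y : ℂ}
    (hy : y ∈ closure (pathComponentIn O x)) (hyO : y ∈ O) : y ∈ pathComponentIn O x := by
  obtain ⟨w, hw1, hw2⟩ := mem_closure_iff.1 hy _ (hO.pathComponentIn y)
    (mem_pathComponentIn_self hyO)
  exact JoinedIn.trans hw2 (JoinedIn.symm hw1)

lemma isOpen_pos {a c η : ℝ} {L : ℂ → ℝ} (hL : ContinuousOn L (crect a c η)) :
    IsOpen {z ∈ orect a c η | 0 < L z} :=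
  (hL.mono (orect_subset a c η)).isOpen_inter_preimage (isOpen_orect a c η) isOpen_Ioi

/-- the cap lemma -/
lemma cap {Ω : Set ℂ} {L M : ℂ → ℝ} {a b c η ε δ B τ : ℝ} (hab : a < b) (hbc : b < c)
    (hε : 0 < ε) (hεη : ε < η) (hΩ : crect a c η ⊆ Ω) (hL : ContinuousOn L (crect a c η))
    (hM : ContinuousOn M (crect a c η)) (hτ : 0 < τ)
    (mp1 : MP Ω (fun z => M z + τ * L z)) (mp2 : MP Ω (fun z => M z - τ * L z))
    (h1 : ∀ z ∈ crect a c η, |L z - z.im| ≤ ε)
    (h2 : ∀ z ∈ crect a c η, z.re = a ∨ z.re = c → M z ≤ -δ)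
    (h3 : ∀ z ∈ crect a c η, z.re = b → 0 ≤ M z) (h4 : ∀ z ∈ crect a c η, M z ≤ B)
    (h5 : 2 * τ * ε < δ) (h6 : B < τ * (η - ε)) {x y : ℂ} (γ : Path x y) (hx : x.re ≤ a)
    (hy : c ≤ y.re) (hγ : ∀ t, |(γ t).im| ≤ ε) (hγL : ∀ t, γ t ∈ crect a c η → 0 < L (γ t)) :
    ∃ t w, ε < w.im ∧ JoinedIn {z ∈ orect a c η | 0 < L z} (γ t) w := by
  by_contra hcon
  push Not at hcon
  set O := {z ∈ orect a c η | 0 < L z} with hOdef
  have hO : IsOpen O := isOpen_pos hL
  set top : ℂ := ⟨b, (η + ε) / 2⟩ with htop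
  set bot : ℂ := ⟨b, -((η + ε) / 2)⟩ with hbot
  have htopim : ε < top.im := by simp only [htop]; linarith
  have hT : {z : ℂ | a < z.re ∧ z.re < c ∧ ε < z.im ∧ z.im < η} ⊆ O := fun z hz => by
    have hzo : z ∈ orect a c η := ⟨hz.1, hz.2.1, by linarith [hz.2.2.1], hz.2.2.2⟩
    exact ⟨hzo, by linarith [abs_le.1 (h1 z (orect_subset _ _ _ hzo)), hz.2.2.1]⟩
  have htopT : top ∈ {z : ℂ | a < z.re ∧ z.re < c ∧ ε < z.im ∧ z.im < η} :=
    ⟨hab, hbc, htopim, by simp only [htop]; linarith⟩
  set A := pathComponentIn O top with hA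
  have hAo : IsOpen A := hO.pathComponentIn top
  have hAO : A ⊆ O := pathComponentIn_subset
  have hAr : A ⊆ orect a c η := fun z hz => (hAO hz).1
  have hTA : {z : ℂ | a < z.re ∧ z.re < c ∧ ε < z.im ∧ z.im < η} ⊆ A :=
    ((convex_box _ _ _ _).isPathConnected ⟨top, htopT⟩).subset_pathComponentIn htopT hT
  have hγA : ∀ t, γ t ∉ A := fun t ht => hcon t top htopim (JoinedIn.symm ht)
  have hclA : ∀ z ∈ closure A, 0 ≤ L z := fun z hz =>
    ContinuousWithinAt.closure_le hz continuousWithinAt_const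
      ((hL z (closure_subset_crect hAr hz)).mono (hAr.trans (orect_subset _ _ _)))
      fun w hw => (hAO hw).2.le
  have hfr : ∀ z ∈ closure A, z ∈ orect a c η → z ∉ A → L z = 0 := fun z hz hzo hzA => by
    rcases (hclA z hz).eq_or_lt with h | h
    · exact h.symm
    · exact absurd (mem_comp_of_closure hO hz ⟨hzo, h⟩) hzA
  -- the set of zeros of L on the closure of A
  set Z := closure A ∩ L ⁻¹' {0} with hZ
  have hZc : IsCompact Z := by
    refine (isCompact_closure_of hAr).of_isClosed_subset ?_ inter_subset_left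
    exact (hL.mono (closure_subset_crect hAr)).preimage_isClosed_of_isClosed isClosed_closure
      isClosed_singleton
  obtain ⟨z₀, hz₀Z, hz₀⟩ : ∃ z₀ ∈ Z, 0 ≤ M z₀ := by
    by_contra hno
    push Not at hno
    have hseg : segment ℝ top bot ⊆ orect a c η ∩ {z | z.re = b} := by
      refine Convex.segment_subset ((convex_box _ _ _ _).inter ?_)
        ⟨⟨hab, hbc, by simp only [htop]; linarith, by simp only [htop]; linarith⟩, rfl⟩
        ⟨⟨hab, hbc, by simp only [hbot]; linarith, by simp only [hbot]; linarith⟩, rfl⟩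
      have : {z : ℂ | z.re = b} = {z : ℂ | z.re ≤ b} ∩ {z : ℂ | b ≤ z.re} := by
        ext z; simp [le_antisymm_iff]
      rw [this]
      exact (convex_halfSpace_re_le b).inter (convex_halfSpace_re_ge b)
    have hsub := (convex_segment top bot).isPreconnected.subset_of_closure_inter_subset hAo
      ⟨top, left_mem_segment _ _ _, hTA htopT⟩ (fun z hz => by
        by_contra hzA
        have hz0 := hfr z hz.1 (hseg hz.2).1 hzA
        have := hno z ⟨hz.1, hz0⟩
        linarith [h3 z (orect_subset _ _ _ (hseg hz.2).1) (hseg hz.2).2])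
    have hb := hAO (hsub (right_mem_segment _ _ _))
    have := abs_le.1 (h1 bot (orect_subset _ _ _ hb.1))
    have h7 := hb.2
    simp only [hbot] at this h7
    linarith [this.2]
  obtain ⟨xs, hxsZ, hxs⟩ := hZc.exists_isMaxOn ⟨z₀, hz₀Z⟩
    (hM.mono (inter_subset_left.trans (closure_subset_crect hAr)))
  set μ := M xs with hμ
  have hμ0 : 0 ≤ μ := hz₀.trans (hxs hz₀Z)
  have hxsc : xs ∈ crect a c η := closure_subset_crect hAr hxsZ.1
  have hxsL : L xs = 0 := hxsZ.2
  have hδ : 0 < δ := lt_trans (by positivity) h5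
  have hxso : xs ∈ orect a c η := by
    have := abs_le.1 (h1 xs hxsc)
    rcases crect_cases hxsc with h | h | h | h | h
    · exact h
    · linarith [h2 xs hxsc (Or.inl h)]
    · linarith [h2 xs hxsc (Or.inr h)]
    · linarith [this.2]
    · linarith [this.1]
  -- first application of the maximum principle
  have hV2 : ∀ z ∈ orect a c η \ closure A, M z + τ * L z ≤ μ := by
    have hsub : orect a c η \ closure A ⊆ orect a c η := diff_subset
    refine mp1 _ ((isOpen_orect a c η).sdiff isClosed_closure) (isCompact_closure_of hsub)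
      ((closure_subset_crect hsub).trans hΩ) μ fun z hz => ?_
    have hzc := closure_subset_crect hsub hz.1
    have hzim : z.im ≤ ε := by
      refine closure_minimal (s := orect a c η \ closure A) (t := {z : ℂ | z.im ≤ ε}) ?_
        (isClosed_le (by fun_prop) (by fun_prop)) hz.1
      intro w hw
      by_contra hw'
      exact hw.2 (subset_closure (hTA ⟨hw.1.1, hw.1.2.1, not_le.1 hw', hw.1.2.2.2⟩))
    have hl := abs_le.1 (h1 z hzc)
    have hl2 : τ * L z ≤ τ * (2 * ε) := by gcongr; linarith [hl.2]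
    rcases crect_cases hzc with h | h | h | h | h
    · have hzA : z ∈ closure A := by
        by_contra hzA
        refine hz.2 ?_
        rw [((isOpen_orect a c η).sdiff isClosed_closure).interior_eq]
        exact ⟨h, hzA⟩
      have hzA' : z ∉ A := fun hzA' => by
        obtain ⟨w, hw1, hw2⟩ := mem_closure_iff.1 hz.1 _ hAo hzA'
        exact hw2.2 (subset_closure hw1)
      have h0 := hfr z hzA h hzA'
      have := hxs (show z ∈ Z from ⟨hzA, h0⟩)
      simp only [h0, mul_zero, add_zero]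
      exact this
    · linarith [h2 z hzc (Or.inl h)]
    · linarith [h2 z hzc (Or.inr h)]
    · have : τ * L z ≤ τ * (-(η - ε)) := by gcongr; linarith [hl.2]
      linarith [h4 z hzc]
    · linarith
  -- bound on the path
  have hpath : ∀ z ∈ range γ ∩ crect a c η, M z - τ * L z < μ := by
    rintro _ ⟨⟨t, rfl⟩, hzc⟩
    have hp := hγL t hzc
    have hp' : 0 < τ * L (γ t) := by positivity
    have hi := abs_le.1 (hγ t)
    rcases crect_cases hzc with h | h | h | h | h
    · have := hV2 (γ t) ⟨h, fun hcl => hγA t (mem_comp_of_closure hO hcl ⟨h, hp⟩)⟩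
      linarith
    · linarith [h2 _ hzc (Or.inl h)]
    · linarith [h2 _ hzc (Or.inr h)]
    · linarith [hi.1]
    · linarith [hi.2]
  have hrc : IsCompact (range γ) := isCompact_range γ.continuous
  obtain ⟨μ', hμ'1, hμ'2, hμ'3, hμ'4⟩ : ∃ μ', μ' < μ ∧ -δ + 2 * τ * ε ≤ μ' ∧
      B - τ * (η - ε) ≤ μ' ∧ ∀ z ∈ range γ ∩ crect a c η, M z - τ * L z ≤ μ' := by
    rcases (range γ ∩ crect a c η).eq_empty_or_nonempty with he | hne
    · exact ⟨max (-δ + 2 * τ * ε) (B - τ * (η - ε)), max_lt (by linarith) (by linarith),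
        le_max_left _ _, le_max_right _ _, by simp [he]⟩
    · obtain ⟨w, hw1, hw2⟩ := (hrc.inter_right (isClosed_crect a c η)).exists_isMaxOn hne
        (f := fun z => M z - τ * L z)
        ((hM.sub (continuousOn_const.mul hL)).mono inter_subset_right)
      exact ⟨max (M w - τ * L w) (max (-δ + 2 * τ * ε) (B - τ * (η - ε))),
        max_lt (hpath w hw1) (max_lt (by linarith) (by linarith)),
        le_max_of_le_right (le_max_left _ _), le_max_of_le_right (le_max_right _ _),
        fun z hz => le_max_of_le_left (hw2 hz)⟩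
  set W := orect a c η \ range γ with hW
  have hWo : IsOpen W := (isOpen_orect a c η).sdiff hrc.isClosed
  set B' := pathComponentIn W bot with hB'
  have hB'o : IsOpen B' := hWo.pathComponentIn bot
  have hbotT : bot ∈ {z : ℂ | a < z.re ∧ z.re < c ∧ -η < z.im ∧ z.im < -ε} :=
    ⟨hab, hbc, by simp only [hbot]; linarith, by simp only [hbot]; linarith⟩
  have hTB : {z : ℂ | a < z.re ∧ z.re < c ∧ -η < z.im ∧ z.im < -ε} ⊆ B' := by
    refine ((convex_box _ _ _ _).isPathConnected ⟨bot, hbotT⟩).subset_pathComponentIn hbotT ?_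
    intro z hz
    refine ⟨⟨hz.1, hz.2.1, hz.2.2.1, by linarith [hz.2.2.2]⟩, ?_⟩
    rintro ⟨t, rfl⟩
    linarith [(abs_le.1 (hγ t)).1, hz.2.2.2]
  have hV1 : ∀ z ∈ W \ closure B', M z - τ * L z ≤ μ' := by
    have hsub : W \ closure B' ⊆ orect a c η := diff_subset.trans diff_subset
    refine mp2 _ (hWo.sdiff isClosed_closure) (isCompact_closure_of hsub)
      ((closure_subset_crect hsub).trans hΩ) μ' fun z hz => ?_
    have hzc := closure_subset_crect hsub hz.1
    have hzim : -ε ≤ z.im := by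
      refine closure_minimal (s := W \ closure B') (t := {z : ℂ | -ε ≤ z.im}) ?_
        (isClosed_le (by fun_prop) (by fun_prop)) hz.1
      intro w hw
      by_contra hw'
      exact hw.2 (subset_closure (hTB ⟨hw.1.1.1, hw.1.1.2.1, hw.1.1.2.2.1, not_le.1 hw'⟩))
    have hl := abs_le.1 (h1 z hzc)
    have hl2 : τ * (-(2 * ε)) ≤ τ * L z := by gcongr; linarith [hl.1]
    rcases crect_cases hzc with h | h | h | h | h
    · by_cases hzγ : z ∈ range γ
      · exact hμ'4 z ⟨hzγ, hzc⟩
      · exfalso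
        have hzB : z ∈ closure B' := by
          by_contra hzB
          refine hz.2 ?_
          rw [(hWo.sdiff isClosed_closure).interior_eq]
          exact ⟨⟨h, hzγ⟩, hzB⟩
        have hzB' := mem_comp_of_closure hWo hzB ⟨h, hzγ⟩
        obtain ⟨w, hw1, hw2⟩ := mem_closure_iff.1 hz.1 _ hB'o hzB'
        exact hw2.2 (subset_closure hw1)
    · linarith [h2 z hzc (Or.inl h)]
    · linarith [h2 z hzc (Or.inr h)]
    · linarith
    · have : τ * (η - ε) ≤ τ * L z := by gcongr; linarith [hl.1]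
      linarith [h4 z hzc]
  have hxsγ : xs ∉ range γ := by
    rintro ⟨t, ht⟩
    have := hγL t (ht ▸ hxsc)
    rw [ht, hxsL] at this
    exact lt_irrefl _ this
  have hxsB : xs ∉ closure B' := by
    intro hcl
    have hB := mem_comp_of_closure hWo hcl ⟨hxso, hxsγ⟩
    obtain ⟨w, hw1, hw2⟩ := mem_closure_iff.1 hxsZ.1 _ hB'o hB
    have hj1 : JoinedIn A top w :=
      (isPathConnected_pathComponentIn (hT htopT)).joinedIn _ (hTA htopT) _ hw2
    have hAW : A ⊆ W := fun z hz => ⟨hAr hz, by rintro ⟨t, rfl⟩; exact hγA t hz⟩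
    obtain ⟨β, hβ⟩ := (hj1.mono hAW).trans (JoinedIn.symm hw1)
    obtain ⟨s, t, hst⟩ := paths_cross γ β (fun t => hx.trans (hβ t).1.1.le)
      (fun t => (hβ t).1.2.1.le.trans hy)
      (fun s => by linarith [(abs_le.1 (hγ s)).2])
      (fun s => by simp only [hbot]; linarith [(abs_le.1 (hγ s)).1])
    exact (hβ t).2 ⟨s, hst⟩
  have := hV1 xs ⟨⟨hxso, hxsγ⟩, hxsB⟩
  simp only [hxsL, mul_zero, sub_zero] at this
  linarith

end Pool.Agent.MP_17e62b_gt
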