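import Pool.Agent.MP_17e62b_gt.Ridge

/-!
The model surface, a harmonic Whitney umbrella without straight segments.
-/

namespace Pool.Agent.MP_17e62b_gt

open Set Complex Filter Topology Polynomial

abbrev V : Type := ℝ × ℂ

/-- the model map -/
noncomputable def f0 (z : ℂ) : V :=
  (z.re, ((z ^ 2).re : ℂ) + ((z ^ 2 + z ^ 3).im : ℂ) * I)

lemma continuous_f0 : Continuous f0 := by unfold f0; fun_prop

noncomputable def mk3 (α β γ : ℝ) : V →L[ℝ] ℝ :=
  α • ContinuousLinearMap.fst ℝ ℝ ℂ + β • reCLM.comp (ContinuousLinearMap.snd ℝ ℝ ℂ) +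
    γ • imCLM.comp (ContinuousLinearMap.snd ℝ ℝ ℂ)

@[simp] lemma mk3_apply (α β γ : ℝ) (v : V) :
    mk3 α β γ v = α * v.1 + β * v.2.re + γ * v.2.im := by simp [mk3]

lemma lin_expand (l : V →L[ℝ] ℝ) (v : V) :
    l v = l (1, 0) * v.1 + l (0, 1) * v.2.re + l (0, I) * v.2.im := by
  have : v = v.1 • ((1 : ℝ), (0 : ℂ)) + v.2.re • ((0 : ℝ), (1 : ℂ)) + v.2.im • ((0 : ℝ), I) := by
    ext
    · simp
    · simp
  conv_lhs => rw [this]
  simp only [map_add, map_smul, smul_eq_mul]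
  ring

lemma f0_fst (z : ℂ) : (f0 z).1 = z.re := rfl
lemma f0_re (z : ℂ) : (f0 z).2.re = z.re ^ 2 - z.im ^ 2 := by
  simp [f0, pow_two]
lemma f0_im (z : ℂ) :
    (f0 z).2.im = 2 * z.re * z.im + 3 * z.re ^ 2 * z.im - z.im ^ 3 := by
  simp [f0, pow_succ]; ring

noncomputable def Phi (l : V →L[ℝ] ℝ) (z : ℂ) : ℂ :=
  l (1, 0) * z + l (0, 1) * z ^ 2 - I * l (0, I) * (z ^ 2 + z ^ 3)

noncomputable def dPhi (l : V →L[ℝ] ℝ) (z : ℂ) : ℂ :=
  l (1, 0) + l (0, 1) * (2 * z) - I * l (0, I) * (2 * z + 3 * z ^ 2)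

lemma l_f0 (l : V →L[ℝ] ℝ) (z : ℂ) : l (f0 z) = (Phi l z).re := by
  rw [lin_expand, f0_fst, f0_re, f0_im]
  simp only [Phi, pow_succ, pow_zero, one_mul, sub_re, add_re, mul_re, ofReal_re, ofReal_im,
    zero_mul, sub_zero, mul_im, add_im, I_re, I_im, zero_add, add_zero, mul_zero]
  ring

lemma hasStrictDerivAt_Phi (l : V →L[ℝ] ℝ) (z : ℂ) : HasStrictDerivAt (Phi l) (dPhi l z) z := by
  have h1 := hasStrictDerivAt_id (𝕜 := ℂ) z
  have h2 := hasStrictDerivAt_pow (𝕜 := ℂ) 2 z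
  have h3 := hasStrictDerivAt_pow (𝕜 := ℂ) 3 z
  have := ((h1.const_mul (l (1, 0) : ℂ)).add (h2.const_mul (l (0, 1) : ℂ))).sub
    ((h2.add h3).const_mul (I * l (0, I)))
  have e : dPhi l z = (l (1, 0) : ℂ) * 1 + (l (0, 1) : ℂ) * ((2 : ℕ) * z ^ (2 - 1)) -
      I * l (0, I) * ((2 : ℕ) * z ^ (2 - 1) + (3 : ℕ) * z ^ (3 - 1)) := by simp [dPhi]
  rw [e]
  exact this

lemma differentiable_Phi (l : V →L[ℝ] ℝ) : Differentiable ℂ (Phi l) :=
  fun z => (hasStrictDerivAt_Phi l z).hasDerivAt.differentiableAt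

/-- the model is saddle -/
lemma mp_f0 (l : V →L[ℝ] ℝ) (Ω : Set ℂ) : MP Ω fun z => l (f0 z) := by
  intro U _ hc _ c hfr x hx
  have := Complex.norm_le_of_forall_mem_frontier_norm_le (f := fun z => exp (Phi l z)) (U := U)
    (hc.isBounded.subset subset_closure) (differentiable_Phi l).cexp.diffContOnCl
    (C := Real.exp c) (fun z hz => by
      rw [norm_exp, ← l_f0]; exact Real.exp_le_exp.2 (hfr z hz)) (subset_closure hx)
  rw [norm_exp, ← l_f0] at this
  exact Real.exp_le_exp.1 this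

/-- a line meets the model surface in finitely many points -/
lemma finite_line (d v : V) :
    {z : ℂ | ∀ m : V →L[ℝ] ℝ, m d = 0 → m (f0 z) = m v}.Finite := by
  by_cases hd : d.1 = 0
  · obtain ⟨β, γ, hβγ, h0⟩ : ∃ β γ : ℝ, ¬ (β = 0 ∧ γ = 0) ∧ β * d.2.re + γ * d.2.im = 0 := by
      by_cases h : d.2.im = 0
      · exact ⟨0, 1, by simp, by simp [h]⟩
      · exact ⟨d.2.im, -d.2.re, fun h' => h h'.1, by ring⟩
    let p : ℝ[X] := C (-γ) * X ^ 3 + C (-β) * X ^ 2 + C (γ * (2 * v.1 + 3 * v.1 ^ 2)) * X +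
      C (β * v.1 ^ 2 - (β * v.2.re + γ * v.2.im))
    have hp : p ≠ 0 := by
      intro h
      have h3 := congrArg (fun q : ℝ[X] => q.coeff 3) h
      have h2 := congrArg (fun q : ℝ[X] => q.coeff 2) h
      simp only [p, coeff_add, coeff_C_mul, coeff_X_pow, coeff_X, coeff_C, coeff_zero] at h3 h2
      norm_num at h3 h2
      exact hβγ ⟨h2, h3⟩
    have hfin : {y : ℝ | p.IsRoot y}.Finite := by
      by_contra h
      exact hp (p.eq_zero_of_infinite_isRoot h)
    refine (hfin.image fun y => (⟨v.1, y⟩ : ℂ)).subset fun z hz => ?_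
    have e1 := hz (mk3 1 0 0) (by simp [hd])
    have e2 := hz (mk3 0 β γ) (by simpa using h0)
    simp only [mk3_apply, f0_fst, f0_re, f0_im] at e1 e2
    have e3 : z.re = v.1 := by linarith
    refine ⟨z.im, ?_, Complex.ext e3.symm rfl⟩
    simp only [mem_setOf_eq, IsRoot.def, p, eval_add, eval_mul, eval_C, eval_pow, eval_X]
    rw [e3] at e2
    linear_combination e2
  · set B := d.2.re / d.1 with hB
    set D := d.2.im / d.1 with hD
    set A := v.2.re - B * v.1 with hA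
    set E := v.2.im - D * v.1 with hE
    let p : ℝ[X] := (X ^ 2 - C B * X - C A) * (C 2 * X ^ 2 + C (2 + B) * X + C A) ^ 2 -
      (C E + C D * X) ^ 2
    have hp : p ≠ 0 := by
      have : p.natDegree = 6 := by
        simp only [p]
        compute_degree!
      intro h
      rw [h] at this
      simp at this
    have hfin : {y : ℝ | p.IsRoot y}.Finite := by
      by_contra h
      exact hp (p.eq_zero_of_infinite_isRoot h)
    refine ((hfin.image fun x => (⟨x, √(x ^ 2 - B * x - A)⟩ : ℂ)).union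
      (hfin.image fun x => (⟨x, -√(x ^ 2 - B * x - A)⟩ : ℂ))).subset fun z hz => ?_
    have e1 := hz (mk3 (-B) 1 0) (by simp [hB]; field_simp; ring)
    have e2 := hz (mk3 (-D) 0 1) (by simp [hD]; field_simp; ring)
    simp only [mk3_apply, f0_fst, f0_re, f0_im] at e1 e2
    have e3 : z.im ^ 2 = z.re ^ 2 - B * z.re - A := by rw [hA]; linarith
    have e4 : z.im * (2 * z.re ^ 2 + (2 + B) * z.re + A) = E + D * z.re := by
      rw [hE]; linear_combination e2 + z.im * e3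
    have hroot : p.IsRoot z.re := by
      simp only [IsRoot.def, p, eval_add, eval_mul, eval_C, eval_pow, eval_X, eval_sub]
      rw [← e3, ← e4]; ring
    have e5 : √(z.re ^ 2 - B * z.re - A) = |z.im| := by rw [← e3, Real.sqrt_sq_eq_abs]
    rcases le_total 0 z.im with h | h
    · exact Or.inl ⟨z.re, hroot, Complex.ext rfl (by simp [e5, abs_of_nonneg h])⟩
    · exact Or.inr ⟨z.re, hroot, Complex.ext rfl (by simp [e5, abs_of_nonpos h])⟩

/-- caps exist on every arc -/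
lemma exists_cap {g : ℝ → ℂ} {α β : ℝ} (hαβ : α < β) (hg : InjOn g (Ioo α β)) :
    ∃ (a b c : ℝ) (m : V →L[ℝ] ℝ), α < a ∧ a < b ∧ b < c ∧ c < β ∧
      m (f0 (g c)) = m (f0 (g a)) ∧ m (f0 (g a)) < m (f0 (g b)) := by
  by_contra hcon
  push Not at hcon
  set a := (2 * α + β) / 3
  set c := (α + 2 * β) / 3
  have h1 : α < a := by simp only [a]; linarith
  have h2 : a < c := by simp only [a, c]; linarith
  have h3 : c < β := by simp only [c]; linarith
  have hsub : Ioo a c ⊆ Ioo α β := Ioo_subset_Ioo h1.le h3.le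
  have hinf : (g '' Ioo a c).Infinite := (Ioo_infinite h2).image (hg.mono hsub)
  refine hinf ((finite_line (f0 (g c) - f0 (g a)) (f0 (g a))).subset ?_)
  rintro _ ⟨b, hb, rfl⟩ m hm
  rw [map_sub, sub_eq_zero] at hm
  have k1 := hcon a b c m h1 hb.1 hb.2 h3 hm
  have k2 := hcon a b c (-m) h1 hb.1 hb.2 h3 (by simp [hm])
  simp at k2
  linarith

end Pool.Agent.MP_17e62b_gt
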