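import Pool.Agent.MP_17e62b_gt.Rigid

namespace Pool.Agent.MP_17e62b_gt

open Set Complex Filter Topology Pool.Agent.Lib.PlaneTop

/-- data for the cap lemma -/
def CapData (Ω : Set ℂ) (L : ℂ → ℝ) (a c η ε : ℝ) : Prop :=
  ∃ (M : ℂ → ℝ) (b δ B τ : ℝ), a < b ∧ b < c ∧ ContinuousOn M (crect a c η) ∧ 0 < τ ∧
    MP Ω (fun z => M z + τ * L z) ∧ MP Ω (fun z => M z - τ * L z) ∧
    (∀ z ∈ crect a c η, z.re = a ∨ z.re = c → M z ≤ -δ) ∧
    (∀ z ∈ crect a c η, z.re = b → 0 ≤ M z) ∧ (∀ z ∈ crect a c η, M z ≤ B) ∧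
    2 * τ * ε < δ ∧ B < τ * (η - ε)

lemma reach {Ω : Set ℂ} {F : ℂ → ℝ} {a c η : ℝ} (hΩ : crect a c η ⊆ Ω)
    (hF : ContinuousOn F (crect a c η)) (mp : MP Ω F) {x : ℂ} (hx : x ∈ orect a c η)
    (hx0 : 0 < F x) : ∃ y ∈ closure (pathComponentIn {z ∈ orect a c η | 0 < F z} x),
      y ∉ orect a c η ∧ 0 < F y := by
  by_contra hcon
  push Not at hcon
  have hO := isOpen_pos hF
  have hsub : pathComponentIn {z ∈ orect a c η | 0 < F z} x ⊆ orect a c η :=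
    fun z hz => (pathComponentIn_subset hz).1
  have := mp _ (hO.pathComponentIn x) (isCompact_closure_of hsub)
    ((closure_subset_crect hsub).trans hΩ) 0 (fun y hy => by
      by_contra hy0
      have hyo : y ∈ orect a c η := by
        by_contra hyo
        exact hy0 (hcon y hy.1 hyo)
      refine hy.2 ?_
      rw [(hO.pathComponentIn x).interior_eq]
      exact mem_comp_of_closure hO hy.1 ⟨hyo, not_le.1 hy0⟩) x
    (mem_pathComponentIn_self ⟨hx, hx0⟩)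
  linarith

lemma conn {Ω : Set ℂ} {L : ℂ → ℝ} {R a c a' c' η ε : ℝ} (hε : 0 < ε) (hεη : ε < η)
    (hΩ : crect (-R) R η ⊆ Ω) (hL : ContinuousOn L (crect (-R) R η)) (mp : MP Ω L)
    (h1 : ∀ z ∈ crect (-R) R η, |L z - z.im| ≤ ε) (capL : CapData Ω L a' c' η ε)
    (capR : CapData Ω L a c η ε) (ha' : -R < a') (hc : c < R) {x : ℂ}
    (hx : x ∈ orect (-R) R η) (hx1 : c' ≤ x.re) (hx2 : x.re ≤ a) (hx0 : 0 < L x) :
    ∃ w, ε < w.im ∧ JoinedIn {z ∈ orect (-R) R η | 0 < L z} x w := by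
  by_contra hcon
  push Not at hcon
  set O := {z ∈ orect (-R) R η | 0 < L z} with hO
  obtain ⟨y, hy1, hy2, hy3⟩ := reach hΩ hL mp hx hx0
  have hsub : pathComponentIn O x ⊆ orect (-R) R η := fun z hz => (pathComponentIn_subset hz).1
  have hyc := closure_subset_crect hsub hy1
  have hVim : ∀ z ∈ pathComponentIn O x, |z.im| ≤ ε := fun z hz => by
    rw [abs_le]
    refine ⟨?_, by by_contra h; exact hcon z (not_le.1 h) hz⟩
    have := abs_le.1 (h1 z (orect_subset _ _ _ (hsub hz)))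
    linarith [(pathComponentIn_subset hz).2, this.2]
  have hyim : |y.im| ≤ ε := closure_minimal (t := {z : ℂ | |z.im| ≤ ε}) hVim
    (isClosed_le (by fun_prop) (by fun_prop)) hy1
  obtain ⟨M, b, δ, B, τ, k1, k2, k3, k4, k5, k6, k7, k8, k9, k10, k11⟩ := capR
  obtain ⟨M', b', δ', B', τ', k1', k2', k3', k4', k5', k6', k7', k8', k9', k10', k11'⟩ := capL
  have hsR : crect a c η ⊆ crect (-R) R η := fun z hz =>
    ⟨by linarith [hz.1], by linarith [hz.2.1], hz.2.2⟩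
  have hsL : crect a' c' η ⊆ crect (-R) R η := fun z hz =>
    ⟨by linarith [hz.1], by linarith [hz.2.1], hz.2.2⟩
  have hoR : {z ∈ orect a c η | 0 < L z} ⊆ O := fun z hz =>
    ⟨⟨by linarith [hz.1.1], by linarith [hz.1.2.1], hz.1.2.2⟩, hz.2⟩
  have hoL : {z ∈ orect a' c' η | 0 < L z} ⊆ O := fun z hz =>
    ⟨⟨by linarith [hz.1.1], by linarith [hz.1.2.1], hz.1.2.2⟩, hz.2⟩
  have hpc := isPathConnected_pathComponentIn (F := O) ⟨hx, hx0⟩
  rcases crect_cases hyc with h | h | h | h | h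
  · exact hy2 h
  · obtain ⟨w, hw1, hw2⟩ := mem_closure_iff.1 hy1 {z : ℂ | z.re < a'}
      (isOpen_lt (by fun_prop) (by fun_prop)) (by simp only [mem_setOf_eq]; linarith)
    obtain ⟨γ, hγ⟩ := hpc.joinedIn _ hw2 _ (mem_pathComponentIn_self ⟨hx, hx0⟩)
    obtain ⟨t, v, hv1, hv2⟩ := cap k1' k2' hε hεη (hsL.trans hΩ) (hL.mono hsL) k3' k4' k5' k6'
      (fun z hz => h1 z (hsL hz)) k7' k8' k9' k10' k11' γ (le_of_lt hw1) hx1
      (fun t => hVim _ (hγ t)) (fun t _ => (pathComponentIn_subset (hγ t)).2)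
    exact hcon v hv1 (JoinedIn.trans (hγ t) (hv2.mono hoL))
  · obtain ⟨w, hw1, hw2⟩ := mem_closure_iff.1 hy1 {z : ℂ | c < z.re}
      (isOpen_lt (by fun_prop) (by fun_prop)) (by simp only [mem_setOf_eq]; linarith)
    obtain ⟨γ, hγ⟩ := hpc.joinedIn _ (mem_pathComponentIn_self ⟨hx, hx0⟩) _ hw2
    obtain ⟨t, v, hv1, hv2⟩ := cap k1 k2 hε hεη (hsR.trans hΩ) (hL.mono hsR) k3 k4 k5 k6
      (fun z hz => h1 z (hsR hz)) k7 k8 k9 k10 k11 γ hx2 (le_of_lt hw1)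
      (fun t => hVim _ (hγ t)) (fun t _ => (pathComponentIn_subset (hγ t)).2)
    exact hcon v hv1 (JoinedIn.trans (hγ t) (hv2.mono hoR))
  · linarith [(abs_le.1 hyim).1]
  · linarith [(abs_le.1 hyim).2]

/-- a point where `F > 0` has winding number zero with respect to a closed set where `F ≤ 0` -/
lemma hasLog_of_pos {Ω : Set ℂ} {F : ℂ → ℝ} {a c η : ℝ} (hΩ : crect a c η ⊆ Ω)
    (hF : ContinuousOn F (crect a c η)) (mp : MP Ω F) {x : ℂ} (hx : x ∈ orect a c η)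
    (hx0 : 0 < F x) {Λ : Set ℂ} (hΛ : IsClosed Λ) (hΛo : Λ ⊆ orect a c η)
    (hΛF : ∀ z ∈ Λ, F z ≤ 0) : HasLogOn (fun z => z - x) Λ := by
  obtain ⟨y, hy1, hy2, -⟩ := reach hΩ hF mp hx hx0
  have hyΛ : y ∈ Λᶜ := fun h => hy2 (hΛo h)
  obtain ⟨r, hr, hb⟩ := Metric.isOpen_iff.1 hΛ.isOpen_compl y hyΛ
  obtain ⟨w, hw1, hw2⟩ := mem_closure_iff.1 hy1 _ Metric.isOpen_ball (Metric.mem_ball_self hr)
  have j1 : JoinedIn Λᶜ y w :=
    (((convex_ball y r).isPathConnected ⟨y, Metric.mem_ball_self hr⟩).joinedIn _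
      (Metric.mem_ball_self hr) _ hw1).mono hb
  have j2 : JoinedIn Λᶜ w x :=
    (JoinedIn.symm hw2).mono fun z hz hzΛ => absurd hz.2 (not_lt.2 (hΛF z hzΛ))
  refine HasLogOn.of_joinedIn (j1.trans j2) ?_
  refine (hasLogOn_of_convex (convex_box a c (-η) η) (by fun_prop) fun z hz h0 => ?_).mono hΛo
  exact hy2 (by rwa [← sub_eq_zero.1 h0])

lemma noRidge_rect {Ω : Set ℂ} {L K : ℂ → ℝ} {R a c a' c' η ε : ℝ} (hε : 0 < ε) (hεη : ε < η)
    (hΩ : crect (-R) R η ⊆ Ω) (hL : ContinuousOn L (crect (-R) R η)) (mp : MP Ω L)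
    (h1 : ∀ z ∈ crect (-R) R η, |L z - z.im| ≤ ε) (capL : CapData Ω L a' c' η ε)
    (capR : CapData Ω L a c η ε) (ha' : -R < a') (hc : c < R)
    (hK : ContinuousOn K (crect (-R) R η)) (mpK : ∀ δ : ℝ, MP Ω fun z => δ * K z - L z)
    (ψ : OpenPartialHomeomorph ℂ ℂ) (h0 : (0 : ℂ) ∈ ψ.source) (hq : ψ 0 ∈ orect (-R) R η)
    (hq1 : c' < (ψ 0).re) (hq2 : (ψ 0).re < a) (hL0 : L (ψ 0) = 0)
    (hKim : ∀ w ∈ ψ.source, K (ψ w) = w.im)
    (hridge : ∀ᶠ t : ℝ in 𝓝[≠] 0, 0 < L (ψ t))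
    (hflat : ∀ δ : ℝ, 0 < δ → ∀ᶠ s : ℝ in 𝓝[≠] 0, L (ψ (s * I)) < δ * |s|) : False := by
  set O := {z ∈ orect (-R) R η | 0 < L z} with hO
  have hnb : ψ.source ∩ ψ ⁻¹' (orect (-R) R η ∩ {z | c' < z.re ∧ z.re < a}) ∈ 𝓝 (0 : ℂ) := by
    refine inter_mem (ψ.open_source.mem_nhds h0) ((ψ.continuousAt h0).preimage_mem_nhds ?_)
    refine IsOpen.mem_nhds ((isOpen_orect _ _ _).inter ?_) ⟨hq, hq1, hq2⟩
    simp only [setOf_and]
    exact (isOpen_lt (by fun_prop) (by fun_prop)).inter (isOpen_lt (by fun_prop) (by fun_prop))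
  obtain ⟨r, hr, hball⟩ := Metric.nhds_basis_closedBall.mem_iff.1 hnb
  rw [eventually_nhdsWithin_iff, Metric.eventually_nhds_iff] at hridge
  obtain ⟨r', hr', hridge⟩ := hridge
  set t₀ := min (r / 3) (r' / 2) with ht₀
  have ht₀p : 0 < t₀ := lt_min (by linarith) (by linarith)
  have ht₀r : 3 * t₀ ≤ r := by linarith [min_le_left (r / 3) (r' / 2)]
  have hin : ∀ y : ℂ, |y.re| ≤ t₀ → |y.im| ≤ 2 * t₀ →
      y ∈ ψ.source ∧ ψ y ∈ orect (-R) R η ∧ c' < (ψ y).re ∧ (ψ y).re < a := by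
    intro y h1 h2
    have := hball (show y ∈ Metric.closedBall 0 r by
      simp only [Metric.mem_closedBall, dist_zero_right]
      linarith [norm_le_abs_re_add_abs_im y])
    exact ⟨this.1, this.2.1, this.2.2⟩
  have hinr : ∀ t : ℝ, |t| ≤ t₀ →
      (t : ℂ) ∈ ψ.source ∧ ψ t ∈ orect (-R) R η ∧ c' < (ψ t).re ∧ (ψ t).re < a :=
    fun t ht => hin t (by simpa using ht) (by simp; linarith)
  have hpos : ∀ t : ℝ, |t| ≤ t₀ → t ≠ 0 → 0 < L (ψ t) := fun t ht ht0 =>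
    hridge (by simp only [dist_zero_right, Real.norm_eq_abs]
               linarith [min_le_right (r / 3) (r' / 2)]) ht0
  have hnn : ∀ t : ℝ, |t| ≤ t₀ → 0 ≤ L (ψ t) := fun t ht => by
    by_cases ht0 : t = 0
    · simp [ht0, hL0]
    · exact (hpos t ht ht0).le
  have a1 : |t₀| ≤ t₀ := (abs_of_pos ht₀p).le
  have a2 : |(-t₀)| ≤ t₀ := by rwa [abs_neg]
  obtain ⟨w₁, hw₁, j₁⟩ := conn hε hεη hΩ hL mp h1 capL capR ha' hc (hinr t₀ a1).2.1
    (hinr t₀ a1).2.2.1.le (hinr t₀ a1).2.2.2.le (hpos t₀ a1 ht₀p.ne')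
  obtain ⟨w₂, hw₂, j₂⟩ := conn hε hεη hΩ hL mp h1 capL capR ha' hc (hinr (-t₀) a2).2.1
    (hinr (-t₀) a2).2.2.1.le (hinr (-t₀) a2).2.2.2.le (hpos (-t₀) a2 (by linarith))
  have hT : {z : ℂ | -R < z.re ∧ z.re < R ∧ ε < z.im ∧ z.im < η} ⊆ O := fun z hz => by
    have hzo : z ∈ orect (-R) R η := ⟨hz.1, hz.2.1, by linarith [hz.2.2.1], hz.2.2.2⟩
    exact ⟨hzo, by linarith [abs_le.1 (h1 z (orect_subset _ _ _ hzo)), hz.2.2.1]⟩
  have j₃ : JoinedIn O w₁ w₂ := by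
    have m1 := j₁.target_mem.1
    have m2 := j₂.target_mem.1
    have m1' : w₁ ∈ {z : ℂ | -R < z.re ∧ z.re < R ∧ ε < z.im ∧ z.im < η} :=
      ⟨m1.1, m1.2.1, hw₁, m1.2.2.2⟩
    exact (((convex_box _ _ _ _).isPathConnected ⟨w₁, m1'⟩).joinedIn _ m1' _
      ⟨m2.1, m2.2.1, hw₂, m2.2.2.2⟩).mono hT
  obtain ⟨γ, hγ⟩ := (j₁.trans j₃).trans j₂.symm
  have hπ₀c : IsCompact (range γ) := isCompact_range γ.continuous
  have hπ₀O : range γ ⊆ O := by rintro _ ⟨t, rfl⟩; exact hγ t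
  have hπ₀r : range γ ⊆ crect (-R) R η := fun z hz => orect_subset _ _ _ (hπ₀O hz).1
  obtain ⟨m, hm1, hm2⟩ := hπ₀c.exists_isMinOn (range_nonempty γ) (hL.mono hπ₀r)
  obtain ⟨C, hC⟩ := hπ₀c.exists_bound_of_continuousOn (hK.mono hπ₀r)
  have hC0 : 0 ≤ C := (norm_nonneg _).trans (hC m hm1)
  set δ := L m / (C + 1) with hδ
  have hLm : 0 < L m := (hπ₀O hm1).2
  have hδp : 0 < δ := by positivity
  have hδK : ∀ z ∈ range γ, δ * |K z| ≤ L z := fun z hz => by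
    have e1 : δ * |K z| ≤ δ * (C + 1) := by
      gcongr; exact (hC z hz).trans (by linarith)
    have e2 : δ * (C + 1) = L m := by rw [hδ]; field_simp
    exact e1.trans (e2.le.trans (hm2 hz))
  have hav : ∀ᶠ τ : ℝ in 𝓝 0, ψ (τ * I) ∉ range γ := by
    have hcont : ContinuousAt (fun τ : ℝ => ψ (τ * I)) 0 := by
      refine ContinuousAt.comp (by simpa using ψ.continuousAt h0) (by fun_prop)
    refine hcont.preimage_mem_nhds (hπ₀c.isClosed.isOpen_compl.mem_nhds ?_)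
    intro h
    have := (hπ₀O h).2
    simp [hL0] at this
  have hfl := hflat δ hδp
  rw [eventually_nhdsWithin_iff] at hfl
  obtain ⟨r₂, hr₂, hr₂'⟩ := Metric.eventually_nhds_iff.1 (hav.and hfl)
  set s := min t₀ (r₂ / 2) with hs
  have hsp : 0 < s := lt_min ht₀p (by linarith)
  have hst : s ≤ t₀ := min_le_left _ _
  have hsr : ∀ τ : ℝ, |τ| ≤ s → dist τ 0 < r₂ := fun τ hτ => by
    simp only [dist_zero_right, Real.norm_eq_abs]
    linarith [min_le_right t₀ (r₂ / 2)]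
  have hcr : ContinuousOn (fun t : ℝ => ψ t) (Icc (-t₀) t₀) :=
    ψ.continuousOn.comp (by fun_prop) fun t ht => (hinr t (abs_le.2 ht)).1
  set P₁ := (fun t : ℝ => ψ t) '' Icc s t₀ with hP₁
  set P₂ := (fun t : ℝ => ψ t) '' Icc (-t₀) (-s) with hP₂
  have hs1 : Icc s t₀ ⊆ Icc (-t₀) t₀ := Icc_subset_Icc (by linarith) le_rfl
  have hs2 : Icc (-t₀) (-s) ⊆ Icc (-t₀) t₀ := Icc_subset_Icc le_rfl (by linarith)
  set π := (P₁ ∪ range γ) ∪ P₂ with hπ
  have hπc : IsClosed π :=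
    (((isCompact_Icc.image_of_continuousOn (hcr.mono hs1)).union hπ₀c).union
      (isCompact_Icc.image_of_continuousOn (hcr.mono hs2))).isClosed
  have hπp : IsPreconnected π := by
    refine IsPreconnected.union (ψ (-t₀ : ℝ)) (Or.inr ⟨1, γ.target⟩)
      ⟨-t₀, ⟨le_rfl, by linarith⟩, rfl⟩ ?_ (isPreconnected_Icc.image _ (hcr.mono hs2))
    exact IsPreconnected.union (ψ t₀) ⟨t₀, ⟨hst, le_rfl⟩, rfl⟩ ⟨0, γ.source⟩
      (isPreconnected_Icc.image _ (hcr.mono hs1)) (isPreconnected_range γ.continuous)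
  have hJs : ∀ τ : ℝ, |τ| ≤ s → (τ * I : ℂ) ∈ ψ.source ∧ ψ (τ * I) ∈ orect (-R) R η :=
    fun τ hτ => by
      have := hin (τ * I) (by simp [ht₀p.le]) (by simp; linarith)
      exact ⟨this.1, this.2.1⟩
  set Λ := π ∪ ψ '' {y | y.im = 0 ∧ |y.re| ≤ s} with hΛ
  have hΛcases : ∀ z ∈ Λ, z ∈ range γ ∨ ∃ t : ℝ, |t| ≤ t₀ ∧ z = ψ t := by
    rintro z (((⟨t, ht, rfl⟩ | h) | ⟨t, ht, rfl⟩) | ⟨y, hy, rfl⟩)
    · exact Or.inr ⟨t, abs_le.2 (hs1 ht), rfl⟩
    · exact Or.inl h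
    · exact Or.inr ⟨t, abs_le.2 (hs2 ht), rfl⟩
    · refine Or.inr ⟨y.re, hy.2.trans hst, ?_⟩
      congr 1
      exact Complex.ext (by simp) (by simp [hy.1])
  have hΛc : IsClosed Λ := by
    refine hπc.union ?_
    have : ψ '' {y | y.im = 0 ∧ |y.re| ≤ s} = (fun t : ℝ => ψ t) '' Icc (-s) s := by
      ext z
      constructor
      · rintro ⟨y, hy, rfl⟩
        refine ⟨y.re, abs_le.1 hy.2, ?_⟩
        simp only
        congr 1
        exact Complex.ext (by simp) (by simp [hy.1])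
      · rintro ⟨t, ht, rfl⟩
        exact ⟨t, ⟨by simp, by simpa using abs_le.2 ht⟩, rfl⟩
    rw [this]
    exact (isCompact_Icc.image_of_continuousOn
      (hcr.mono (Icc_subset_Icc (by linarith) hst))).isClosed
  have hΛo : Λ ⊆ orect (-R) R η := fun z hz => by
    rcases hΛcases z hz with h | ⟨t, ht, rfl⟩
    · exact (hπ₀O h).1
    · exact (hinr t ht).2.1
  have hΛF : ∀ z ∈ Λ, δ * |K z| ≤ L z := fun z hz => by
    rcases hΛcases z hz with h | ⟨t, ht, rfl⟩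
    · exact hδK z h
    · rw [hKim _ (hinr t ht).1]
      simpa using hnn t ht
  have b1 : |s| ≤ s := (abs_of_pos hsp).le
  have b2 : |(-s)| ≤ s := by rwa [abs_neg]
  refine jump ψ hsp (fun y h1 h2 h3 => (hin y (h1.trans hst) (abs_le.2 ⟨by linarith, by linarith⟩)).1)
    hπc hπp (Or.inl (Or.inl ⟨s, ⟨le_rfl, hst⟩, rfl⟩))
    (Or.inr ⟨-s, ⟨by linarith, le_rfl⟩, by simp⟩) ?_ ?_ ?_
  · rintro τ hτ ((⟨t, ht, h⟩ | h) | ⟨t, ht, h⟩)
    · have := congrArg re (ψ.injOn (hinr t (abs_le.2 (hs1 ht))).1 (hJs τ hτ).1 h)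
      simp at this
      linarith [ht.1]
    · exact (hr₂' (hsr τ hτ)).1 h
    · have := congrArg re (ψ.injOn (hinr t (abs_le.2 (hs2 ht))).1 (hJs τ hτ).1 h)
      simp at this
      linarith [ht.2]
  · refine hasLog_of_pos (F := fun z => δ * K z - L z) hΩ ((continuousOn_const.mul hK).sub hL)
      (mpK δ) (hJs s b1).2 ?_ hΛc hΛo fun z hz => ?_
    · have := (hr₂' (hsr s b1)).2 hsp.ne'
      rw [abs_of_pos hsp] at this
      rw [hKim _ (hJs s b1).1]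
      simpa using this
    · have := hΛF z hz
      have e : δ * K z ≤ δ * |K z| := by gcongr; exact le_abs_self _
      linarith
  · have e0 : -((s : ℂ) * I) = ((-s : ℝ) : ℂ) * I := by simp
    rw [e0]
    refine hasLog_of_pos (F := fun z => -δ * K z - L z) hΩ ((continuousOn_const.mul hK).sub hL)
      (mpK (-δ)) (hJs (-s) b2).2 ?_ hΛc hΛo fun z hz => ?_
    · have := (hr₂' (hsr (-s) b2)).2 (by simp [hsp.ne'])
      rw [abs_neg, abs_of_pos hsp] at this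
      rw [hKim _ (hJs (-s) b2).1]
      simpa using this
    · have := hΛF z hz
      have e : δ * (-K z) ≤ δ * |K z| := by gcongr; exact neg_le_abs _
      linarith

end Pool.Agent.MP_17e62b_gt
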