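import Pool.Agent.MP_17e62b_gt.Local

namespace Pool.Agent.MP_17e62b_gt

open Set Complex Filter Topology Metric Asymptotics

def IsNormal (G : ℂ → V) (q : ℂ) (l : V →L[ℝ] ℝ) : Prop :=
  (fun z => l (G z - G q)) =o[𝓝 q] fun z => G z - G q

def GraphChart (G : ℂ → V) (P : V →L[ℝ] ℂ) (ψ : OpenPartialHomeomorph ℂ ℂ) : Prop :=
  ContDiffOn ℝ 1 (fun y => G (ψ y)) ψ.source ∧ ∀ y ∈ ψ.source, P (G (ψ y)) = y

def Imm (G : ℂ → V) : Prop :=
  ∀ q ∈ ball (0 : ℂ) 1, ∃ P ψ, q ∈ ψ.target ∧ GraphChart G P ψ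

lemma graphChart_of {G : ℂ → V} (ψ : OpenPartialHomeomorph ℂ ℂ) {y₀ : ℂ} (hy : y₀ ∈ ψ.source)
    (hc : ContDiffAt ℝ 1 (fun y => G (ψ y)) y₀)
    (hi : Function.Injective (fderiv ℝ (fun y => G (ψ y)) y₀)) :
    ∃ P ψ', ψ y₀ ∈ ψ'.target ∧ GraphChart G P ψ' := by
  obtain ⟨P₀, hP₀⟩ := LinearMap.exists_leftInverse_of_injective
    (fderiv ℝ (fun y => G (ψ y)) y₀).toLinearMap (LinearMap.ker_eq_bot.2 hi)
  let P : V →L[ℝ] ℂ := LinearMap.toContinuousLinearMap P₀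
  have hΦ : ContDiffAt ℝ 1 (fun y => P (G (ψ y))) y₀ := P.contDiff.contDiffAt.comp y₀ hc
  have hΦ' : HasFDerivAt (fun y => P (G (ψ y)))
      ((ContinuousLinearEquiv.refl ℝ ℂ : ℂ ≃L[ℝ] ℂ) : ℂ →L[ℝ] ℂ) y₀ := by
    have := P.hasFDerivAt.comp y₀ (hc.differentiableAt one_ne_zero).hasFDerivAt
    have e : P.comp (fderiv ℝ (fun y => G (ψ y)) y₀) =
        ((ContinuousLinearEquiv.refl ℝ ℂ : ℂ ≃L[ℝ] ℂ) : ℂ →L[ℝ] ℂ) :=
      ContinuousLinearMap.ext fun v => LinearMap.congr_fun hP₀ v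
    rw [e] at this
    exact this
  set e := hΦ.toOpenPartialHomeomorph _ hΦ' one_ne_zero with he
  have hye : y₀ ∈ e.source := hΦ.mem_toOpenPartialHomeomorph_source hΦ' one_ne_zero
  have hee : ∀ y, e y = P (G (ψ y)) := fun _ => rfl
  have hinv : ContDiffAt ℝ 1 e.symm (e y₀) := hΦ.to_localInverse hΦ' one_ne_zero
  have hcomp : ContDiffAt ℝ 1 (fun y => G (ψ (e.symm y))) (e y₀) := by
    refine ContDiffAt.comp (g := fun y => G (ψ y)) (e y₀) ?_ hinv
    rwa [e.left_inv hye]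
  obtain ⟨W, hW1, hW2, hW3⟩ := _root_.eventually_nhds_iff.1 (hcomp.eventually (by simp))
  refine ⟨P, (e.symm.trans ψ).restrOpen W hW2, ?_, ?_, ?_⟩
  · have : e y₀ ∈ ((e.symm.trans ψ).restrOpen W hW2).source :=
      ⟨⟨e.map_source hye, by simpa [e.left_inv hye] using hy⟩, hW3⟩
    have h2 := ((e.symm.trans ψ).restrOpen W hW2).map_source this
    simpa [e.left_inv hye] using h2
  · exact fun y hy => (hW1 y hy.2).contDiffWithinAt
  · intro y hy
    exact (hee _).symm.trans (e.right_inv hy.1.1)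

variable {G : ℂ → V} {P : V →L[ℝ] ℂ} {ψ : OpenPartialHomeomorph ℂ ℂ}

lemma GraphChart.hasFDerivAt (h : GraphChart G P ψ) {y : ℂ} (hy : y ∈ ψ.source) :
    HasFDerivAt (fun y => G (ψ y)) (fderiv ℝ (fun y => G (ψ y)) y) y :=
  ((h.1.contDiffAt (ψ.open_source.mem_nhds hy)).differentiableAt one_ne_zero).hasFDerivAt

lemma GraphChart.continuousOn_fderiv (h : GraphChart G P ψ) :
    ContinuousOn (fderiv ℝ fun y => G (ψ y)) ψ.source :=
  h.1.continuousOn_fderiv_of_isOpen ψ.open_source le_rfl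

lemma GraphChart.left_inv (h : GraphChart G P ψ) {y : ℂ} (hy : y ∈ ψ.source) (v : ℂ) :
    P (fderiv ℝ (fun y => G (ψ y)) y v) = v := by
  have h1 := P.hasFDerivAt.comp y (h.hasFDerivAt hy)
  have h2 : HasFDerivAt (P ∘ fun y => G (ψ y)) (ContinuousLinearMap.id ℝ ℂ) y :=
    (hasFDerivAt_id y).congr_of_eventuallyEq
      (by filter_upwards [ψ.open_source.mem_nhds hy] with w hw using h.2 w hw)
  exact congrArg (fun A : ℂ →L[ℝ] ℂ => A v) (h1.unique h2)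

lemma GraphChart.isNormal_iff (h : GraphChart G P ψ) {y : ℂ} (hy : y ∈ ψ.source)
    (l : V →L[ℝ] ℝ) :
    IsNormal G (ψ y) l ↔ l.comp (fderiv ℝ (fun y => G (ψ y)) y) = 0 := by
  have hd := h.hasFDerivAt hy
  have h1 : (fun w => G (ψ w) - G (ψ y)) =O[𝓝 y] fun w => w - y := hd.isBigO_sub
  have h2 : (fun w => w - y) =O[𝓝 y] fun w => G (ψ w) - G (ψ y) := by
    refine IsBigO.of_bound ‖P‖ ?_
    filter_upwards [ψ.open_source.mem_nhds hy] with w hw
    have : w - y = P (G (ψ w) - G (ψ y)) := by rw [map_sub, h.2 w hw, h.2 y hy]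
    rw [this]
    exact P.le_opNorm _
  have h3 := l.hasFDerivAt.comp y hd
  rw [IsNormal, ← ψ.map_nhds_eq hy, isLittleO_map]
  constructor
  · intro h4
    have h5 : HasFDerivAt (l ∘ fun y => G (ψ y)) (0 : ℂ →L[ℝ] ℝ) y := by
      rw [hasFDerivAt_iff_isLittleO]
      simpa [Function.comp_def] using h4.trans_isBigO h1
    exact h3.unique h5
  · intro h4
    rw [h4, hasFDerivAt_iff_isLittleO] at h3
    simpa [Function.comp_def] using h3.trans_isBigO h2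

lemma GraphChart.ridge (h : GraphChart G P ψ) {y : ℂ} (hy : y ∈ ψ.source) (l : V →L[ℝ] ℝ)
    {v : ℂ} (hv : v ≠ 0)
    (hpos : ∀ᶠ t : ℝ in 𝓝[≠] 0, 0 < l (G (ψ (y + t * v))) - l (G (ψ y)) -
      l (fderiv ℝ (fun y => G (ψ y)) y v) * t) :
    Ridge G (ψ y) (l - (l.comp (fderiv ℝ (fun y => G (ψ y)) y)).comp P) := by
  set A := fderiv ℝ (fun y => G (ψ y)) y with hA
  let a : ℂ ≃ₜ ℂ := (Homeomorph.mulRight₀ v hv).trans (Homeomorph.addLeft y)
  have ha : ∀ w, a w = y + w * v := fun _ => rfl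
  have hnear : ∀ᶠ w in 𝓝 (0 : ℂ), y + w * v ∈ ψ.source :=
    ((by fun_prop : Continuous fun w : ℂ => y + w * v).tendsto' 0 y (by simp)).eventually
      (ψ.open_source.mem_nhds hy)
  refine ⟨a.toOpenPartialHomeomorph.trans ψ,
    (imCLM.comp (ContinuousLinearMap.mul ℝ ℂ v⁻¹)).comp P, by simpa [ha] using hy, by simp [ha],
    fun w hw => ?_, ?_, fun δ hδ => ?_⟩
  · have hw' : y + w * v ∈ ψ.source := by simpa [ha] using hw
    have e1 : v⁻¹ * (y + w * v) = v⁻¹ * y + w := by field_simp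
    simp [ha, h.2 _ hw', h.2 _ hy, e1]
  · have h1 : ∀ᶠ t : ℝ in 𝓝[≠] 0, y + t * v ∈ ψ.source :=
      nhdsWithin_le_nhds ((continuous_ofReal.tendsto' 0 0 (by simp)).eventually hnear)
    filter_upwards [h1, hpos] with t ht1 ht2
    have e1 : A ((t : ℂ) * v) = t • A v := by rw [← map_smul]; rfl
    simp only [OpenPartialHomeomorph.coe_trans, Homeomorph.toOpenPartialHomeomorph_apply,
      Function.comp_apply, ha, ContinuousLinearMap.sub_apply, ContinuousLinearMap.comp_apply,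
      h.2 _ ht1, h.2 _ hy, map_add, e1, map_smul, smul_eq_mul]
    linarith
  · have hd := l.hasFDerivAt.comp y (h.hasFDerivAt hy)
    rw [hasFDerivAt_iff_isLittleO_nhds_zero] at hd
    have hv' : 0 < ‖v‖ := norm_pos_iff.2 hv
    have h2 := (((by fun_prop : Continuous fun s : ℝ => (s : ℂ) * I * v).tendsto' 0 0
      (by simp)).eventually (hd.bound (c := δ / (2 * ‖v‖)) (by positivity)))
    have h1 : ∀ᶠ t : ℝ in 𝓝 0, y + t * I * v ∈ ψ.source :=
      ((by fun_prop : Continuous fun t : ℝ => (t : ℂ) * I).tendsto' 0 0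
        (by simp)).eventually hnear
    filter_upwards [nhdsWithin_le_nhds h1, nhdsWithin_le_nhds h2, self_mem_nhdsWithin]
      with s hs1 hs2 hs0
    have hs0' : 0 < |s| := abs_pos.2 hs0
    simp only [OpenPartialHomeomorph.coe_trans, Homeomorph.toOpenPartialHomeomorph_apply,
      Function.comp_apply, ha, ContinuousLinearMap.sub_apply, ContinuousLinearMap.comp_apply,
      h.2 _ hs1, h.2 _ hy, map_add] at hs2 ⊢
    have e2 : δ / (2 * ‖v‖) * ‖(s : ℂ) * I * v‖ = δ / 2 * |s| := by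
      simp only [Complex.norm_mul, norm_real, Real.norm_eq_abs, norm_I, mul_one]
      field_simp
    rw [e2, Real.norm_eq_abs, ← hA] at hs2
    have := (le_abs_self _).trans hs2
    nlinarith

lemma oneD_aux {φ φ' : ℝ → ℝ} (hφ : ∀ t ∈ Icc (0 : ℝ) 1, HasDerivAt φ (φ' t) t) {t₁ : ℝ}
    (ht₁ : t₁ ∈ Ioo (0 : ℝ) 1) (h : φ t₁ < φ 0 + t₁ * (φ 1 - φ 0)) :
    ∃ t ∈ Ioo (0 : ℝ) 1, ∀ᶠ s in 𝓝[≠] (0 : ℝ), 0 < φ (t + s) - φ t - φ' t * s := by
  set β := φ 0 + t₁ * (φ 1 - φ 0) - φ t₁ with hβ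
  have hβp : 0 < β := by linarith
  let χ : ℝ → ℝ := fun t => φ t - (φ 0 + t * (φ 1 - φ 0)) + β * (t * (1 - t))
  have hχ : ∀ t ∈ Icc (0 : ℝ) 1, HasDerivAt χ (φ' t - (φ 1 - φ 0) + β * (1 - 2 * t)) t := by
    intro t ht
    have h1 : HasDerivAt (fun t : ℝ => φ 0 + t * (φ 1 - φ 0)) (φ 1 - φ 0) t := by
      simpa using ((hasDerivAt_id t).mul_const (φ 1 - φ 0)).const_add (φ 0)
    have h2 : HasDerivAt (fun t : ℝ => β * (t * (1 - t))) (β * (1 - 2 * t)) t := by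
      have := ((hasDerivAt_id t).mul ((hasDerivAt_id t).const_sub 1)).const_mul β
      have e : β * (1 * (1 - id t) + id t * -1) = β * (1 - 2 * t) := by simp only [id]; ring
      rw [e] at this
      exact this
    exact ((hφ t ht).sub h1).add h2
  obtain ⟨t, ht, hmin⟩ := isCompact_Icc.exists_isMinOn (nonempty_Icc.2 zero_le_one)
    (f := χ) fun t ht => (hχ t ht).continuousAt.continuousWithinAt
  have hneg : χ t < 0 := by
    refine (hmin (Ioo_subset_Icc_self ht₁)).trans_lt ?_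
    have : t₁ * (1 - t₁) < 1 := by nlinarith [ht₁.1, ht₁.2]
    simp only [χ]
    nlinarith
  have ht' : t ∈ Ioo (0 : ℝ) 1 := by
    refine ⟨ht.1.lt_of_ne ?_, ht.2.lt_of_ne ?_⟩
    · rintro rfl; simp [χ] at hneg
    · rintro rfl; simp [χ] at hneg
  have hnhds : Icc (0 : ℝ) 1 ∈ 𝓝 t := Icc_mem_nhds ht'.1 ht'.2
  have hd0 := (hmin.isLocalMin hnhds).hasDerivAt_eq_zero (hχ t ht)
  refine ⟨t, ht', ?_⟩
  have h1 : ∀ᶠ s in 𝓝 (0 : ℝ), t + s ∈ Icc (0 : ℝ) 1 :=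
    ((by fun_prop : Continuous fun s : ℝ => t + s).tendsto' 0 t (by simp)).eventually hnhds
  filter_upwards [nhdsWithin_le_nhds h1, self_mem_nhdsWithin] with s hs hs0
  have h2 : χ t ≤ χ (t + s) := hmin hs
  have h3 : 0 < β * s ^ 2 := mul_pos hβp (by have : s ≠ 0 := hs0; positivity)
  simp only [χ] at h2
  have h4 : φ' t = (φ 1 - φ 0) - β * (1 - 2 * t) := by linarith
  rw [h4]
  nlinarith

lemma oneD {φ φ' : ℝ → ℝ} (hφ : ∀ t ∈ Icc (0 : ℝ) 1, HasDerivAt φ (φ' t) t) (h0 : φ' 0 = 0)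
    (h1 : φ 1 ≠ φ 0) : ∃ t ∈ Ioo (0 : ℝ) 1,
      (∀ᶠ s in 𝓝[≠] (0 : ℝ), 0 < φ (t + s) - φ t - φ' t * s) ∨
      (∀ᶠ s in 𝓝[≠] (0 : ℝ), 0 < -φ (t + s) - -φ t - -φ' t * s) := by
  by_cases ha : ∃ t₁ ∈ Ioo (0 : ℝ) 1, φ t₁ < φ 0 + t₁ * (φ 1 - φ 0)
  · obtain ⟨t₁, h2, h3⟩ := ha
    obtain ⟨t, ht, h⟩ := oneD_aux hφ h2 h3
    exact ⟨t, ht, Or.inl h⟩
  by_cases hb : ∃ t₁ ∈ Ioo (0 : ℝ) 1, -φ t₁ < -φ 0 + t₁ * (-φ 1 - -φ 0)
  · obtain ⟨t₁, h2, h3⟩ := hb
    obtain ⟨t, ht, h⟩ := oneD_aux (φ := fun t => -φ t) (φ' := fun t => -φ' t)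
      (fun t ht => (hφ t ht).neg) h2 h3
    exact ⟨t, ht, Or.inr h⟩
  exfalso
  push Not at ha hb
  have h2 : HasDerivWithinAt φ (φ 1 - φ 0) (Ico 0 1) 0 := by
    have h3 : HasDerivAt (fun t : ℝ => φ 0 + t * (φ 1 - φ 0)) (φ 1 - φ 0) 0 := by
      simpa using ((hasDerivAt_id (0 : ℝ)).mul_const (φ 1 - φ 0)).const_add (φ 0)
    refine h3.hasDerivWithinAt.congr (fun t ht => ?_) (by simp)
    rcases ht.1.eq_or_lt with h | h
    · simp [← h]
    · linarith [ha t ⟨h, ht.2⟩, hb t ⟨h, ht.2⟩]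
  have h4 := (uniqueDiffOn_Ico (0 : ℝ) 1 0 (by simp)).eq_deriv _ h2
    (hφ 0 (by simp)).hasDerivWithinAt
  exact h1 (by linarith)

lemma GraphChart.const_or_ridge (h : GraphChart G P ψ) {y₀ : ℂ} (hy : y₀ ∈ ψ.source)
    {l : V →L[ℝ] ℝ} (hn : IsNormal G (ψ y₀) l) {ε : ℝ} (hε : 0 < ε) {U : Set ℂ}
    (hU : U ∈ 𝓝 (ψ y₀)) : (∀ᶠ z in 𝓝 (ψ y₀), l (G z) = l (G (ψ y₀))) ∨
      ∃ q ∈ U, ∃ l' : V →L[ℝ] ℝ, ‖l' - l‖ < ε ∧ (Ridge G q l' ∨ Ridge G q (-l')) := by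
  have h0 := (h.isNormal_iff hy l).1 hn
  have hc : ContinuousAt (fun y => ‖(l.comp (fderiv ℝ (fun y => G (ψ y)) y)).comp P‖) y₀ := by
    have := h.continuousOn_fderiv.continuousAt (ψ.open_source.mem_nhds hy)
    fun_prop
  have h1 : ∀ᶠ y in 𝓝 y₀, ‖(l.comp (fderiv ℝ (fun y => G (ψ y)) y)).comp P‖ < ε :=
    hc.eventually (gt_mem_nhds (by simpa [h0] using hε))
  have h2 : ∀ᶠ y in 𝓝 y₀, ψ y ∈ U := (ψ.continuousAt hy).eventually hU
  obtain ⟨r, hr, hball⟩ := Metric.eventually_nhds_iff_ball.1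
    (h1.and (h2.and (ψ.open_source.eventually_mem hy)))
  by_cases hconst : ∀ y ∈ ball y₀ r, l (G (ψ y)) = l (G (ψ y₀))
  · left
    rw [← ψ.map_nhds_eq hy, eventually_map]
    filter_upwards [ball_mem_nhds y₀ hr] with y hy using hconst y hy
  right
  push Not at hconst
  obtain ⟨y₁, hy₁, hne⟩ := hconst
  set v := y₁ - y₀ with hv
  have hv0 : v ≠ 0 := by
    intro h0
    rw [sub_eq_zero.1 h0] at hne
    exact hne rfl
  have hin : ∀ t ∈ Icc (0 : ℝ) 1, y₀ + t * v ∈ ball y₀ r := fun t ht => by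
    have := (convex_ball y₀ r).add_smul_sub_mem (mem_ball_self hr) hy₁ ht
    simpa using this
  obtain ⟨t, ht, hor⟩ := oneD (φ := fun t : ℝ => l (G (ψ (y₀ + t * v))))
    (φ' := fun t : ℝ => l (fderiv ℝ (fun y => G (ψ y)) (y₀ + t * v) v))
    (fun t ht => by
      have a1 : HasDerivAt (fun t : ℝ => y₀ + t * v) v t := by
        simpa using ((hasDerivAt_id (t : ℂ)).mul_const v).comp_ofReal.const_add y₀
      have a2 := (l.hasFDerivAt.comp _ (h.hasFDerivAt (hball _ (hin t ht)).2.2)).comp_hasDerivAt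
        t a1
      exact a2)
    (by simpa using congrArg (fun A : ℂ →L[ℝ] ℝ => A v) h0) (by simpa [hv] using hne)
  have ht' := hball _ (hin t (Ioo_subset_Icc_self ht))
  refine ⟨ψ (y₀ + t * v), ht'.2.1,
    l - (l.comp (fderiv ℝ (fun y => G (ψ y)) (y₀ + t * v))).comp P, by simpa using ht'.1, ?_⟩
  have e : ∀ s : ℝ, y₀ + ((t + s : ℝ) : ℂ) * v = y₀ + t * v + s * v := fun s => by
    push_cast; ring
  rcases hor with hor | hor
  · exact Or.inl (h.ridge ht'.2.2 l hv0 (by simpa only [e] using hor))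
  · right
    have := h.ridge ht'.2.2 (-l) hv0 (by simpa only [e, ContinuousLinearMap.neg_apply] using hor)
    convert this using 1
    ext <;> simp <;> ring

lemma dPhi_neg (l : V →L[ℝ] ℝ) (z : ℂ) : dPhi (-l) z = -dPhi l z := by
  simp [dPhi]; ring

theorem noNormal {p : ℂ} (hp : p ∈ ball (0 : ℂ) 1) (l : V →L[ℝ] ℝ) (hd : dPhi l p ≠ 0) :
    ∃ ε, 0 < ε ∧ ∀ G : ℂ → V, Good G → Imm G → (∀ z ∈ ball (0 : ℂ) 1, ‖G z - f0 z‖ ≤ ε) →
      ∀ (q : ℂ) (l' : V →L[ℝ] ℝ), dist q p < ε → ‖l' - l‖ < ε → ¬ IsNormal G q l' := by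
  obtain ⟨ε₁, hε₁, H₁⟩ := noRidge hp l hd
  obtain ⟨ε₂, hε₂, H₂⟩ := noRidge hp (-l) (by rw [dPhi_neg]; exact neg_ne_zero.2 hd)
  obtain ⟨r₁, hr₁, hb₁⟩ := Metric.isOpen_iff.1 isOpen_ball p hp
  set r := min r₁ (min ε₁ ε₂) with hr
  have hrp : 0 < r := by positivity
  have hr1 : r ≤ ε₁ := (min_le_right _ _).trans (min_le_left _ _)
  have hr2 : r ≤ ε₂ := (min_le_right _ _).trans (min_le_right _ _)
  have hS : ball p r ⊆ ball 0 1 := (ball_subset_ball (min_le_left _ _)).trans hb₁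
  obtain ⟨z₁, hz₁, hne⟩ : ∃ z₁ ∈ ball p r, l (f0 p) < l (f0 z₁) := by
    have h1 : Phi l '' ball p r ∈ 𝓝 (Phi l p) := by
      rw [← (hasStrictDerivAt_Phi l p).map_nhds_eq hd]
      exact image_mem_map (ball_mem_nhds p hrp)
    obtain ⟨ρ, hρ, hb⟩ := Metric.nhds_basis_closedBall.mem_iff.1 h1
    obtain ⟨z₁, hz₁, he⟩ := hb (show Phi l p + ρ ∈ closedBall (Phi l p) ρ by
      simp [abs_of_pos hρ])
    exact ⟨z₁, hz₁, by rw [l_f0, l_f0, he]; simpa using hρ⟩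
  set κ := l (f0 z₁) - l (f0 p) with hκ
  have hκp : 0 < κ := by linarith
  obtain ⟨C, hC⟩ := (isCompact_closedBall (0 : ℂ) 1).exists_bound_of_continuousOn
    continuous_f0.continuousOn
  have hC0 : 0 ≤ C := (norm_nonneg _).trans (hC 0 (by simp))
  refine ⟨min (r / 2) (min 1 (κ / (4 * (C + 1 + ‖l‖)))), by positivity,
    fun G hG hI hcl q l' hq hl' hn => ?_⟩
  set ε := min (r / 2) (min 1 (κ / (4 * (C + 1 + ‖l‖)))) with hε
  have hεp : 0 < ε := by positivity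
  have e1 : ε ≤ r / 2 := min_le_left _ _
  have e2 : ε ≤ 1 := (min_le_right _ _).trans (min_le_left _ _)
  have e4 : ε ≤ κ / (4 * (C + 1 + ‖l‖)) := (min_le_right _ _).trans (min_le_right _ _)
  have hpt : ∀ z ∈ ball (0 : ℂ) 1, |l' (G z) - l (f0 z)| ≤ κ / 4 := fun z hz => by
    have b1 : l' (G z) - l (f0 z) = (l' - l) (G z) + l (G z - f0 z) := by simp
    have b2 : ‖G z‖ ≤ C + 1 := by
      have := norm_add_le (f0 z) (G z - f0 z)
      rw [add_sub_cancel] at this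
      linarith [hC z (ball_subset_closedBall hz), hcl z hz]
    have b3 : |(l' - l) (G z)| ≤ ε * (C + 1) :=
      ((l' - l).le_opNorm _).trans (mul_le_mul hl'.le b2 (norm_nonneg _) hεp.le)
    have b4 : |l (G z - f0 z)| ≤ ‖l‖ * ε :=
      (l.le_opNorm _).trans (mul_le_mul_of_nonneg_left (hcl z hz) (norm_nonneg _))
    rw [le_div_iff₀ (by positivity)] at e4
    rw [b1]
    refine (abs_add_le _ _).trans ?_
    nlinarith
  have hstep : ∀ z ∈ ball p r, IsNormal G z l' → ∀ᶠ w in 𝓝 z, l' (G w) = l' (G z) := by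
    intro z hz hnz
    obtain ⟨P, ψ, hzt, hch⟩ := hI z (hS hz)
    rw [← ψ.right_inv hzt] at hnz hz ⊢
    rcases hch.const_or_ridge (ψ.map_target hzt) hnz (half_pos hrp)
      (isOpen_ball.mem_nhds hz) with h | ⟨q', hq', l'', hl'', h⟩
    · exact h
    · exfalso
      have hll : ‖l'' - l‖ < r := by
        have := norm_add_le (l'' - l') (l' - l)
        rw [sub_add_sub_cancel] at this
        linarith
      rcases h with h | h
      · exact H₁ G hG (fun z hz => (hcl z hz).trans (by linarith)) q' l''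
          (lt_of_lt_of_le hq' hr1) (hll.trans_le hr1) h
      · exact H₂ G hG (fun z hz => (hcl z hz).trans (by linarith)) q' (-l'')
          (lt_of_lt_of_le hq' hr2) (by
            rw [neg_sub_neg, norm_sub_rev]; exact hll.trans_le hr2) h
  have hqS : q ∈ ball p r := lt_of_lt_of_le hq (by linarith)
  have hall : ball p r ⊆ {z | ∀ᶠ w in 𝓝 z, l' (G w) = l' (G q)} := by
    refine (convex_ball p r).isPreconnected.subset_of_closure_inter_subset isOpen_setOf_eventually_nhds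
      ⟨q, hqS, hstep q hqS hn⟩ ?_
    rintro z ⟨hz1, hz2⟩
    have hcz : ContinuousAt (fun w => l' (G w)) z :=
      l'.continuous.continuousAt.comp (hG.1.continuousAt (isOpen_ball.mem_nhds (hS hz2)))
    have hval : l' (G z) = l' (G q) := by
      refine tendsto_nhds_unique_of_frequently_eq hcz tendsto_const_nhds ?_
      exact (mem_closure_iff_frequently.1 hz1).mono fun w hw => hw.self_of_nhds
    have hnz : IsNormal G z l' := by
      obtain ⟨P, ψ, hzt, hch⟩ := hI z (hS hz2)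
      have hy := ψ.map_target hzt
      rw [← ψ.right_inv hzt] at hz1 ⊢
      rw [hch.isNormal_iff hy]
      have hc : ContinuousAt (fun y => l'.comp (fderiv ℝ (fun y => G (ψ y)) y)) (ψ.symm z) := by
        have := hch.continuousOn_fderiv.continuousAt (ψ.open_source.mem_nhds hy)
        fun_prop
      refine tendsto_nhds_unique_of_frequently_eq hc tendsto_const_nhds ?_
      have hfr := mem_closure_iff_frequently.1 hz1
      rw [← ψ.map_nhds_eq hy, frequently_map] at hfr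
      refine (hfr.and_eventually (ψ.open_source.eventually_mem hy)).mono fun y hy' => ?_
      rw [← hch.isNormal_iff hy'.2]
      refine IsLittleO.congr' (isLittleO_zero _ _) ?_ EventuallyEq.rfl
      have h3 : ∀ᶠ w in 𝓝 (ψ y), l' (G w) = l' (G q) := hy'.1
      filter_upwards [h3] with w hw
      rw [map_sub, hw, h3.self_of_nhds, sub_self]
    have := hstep z hz2 hnz
    rw [hval] at this
    exact this
  have c1 := abs_le.1 (hpt _ (hS hz₁))
  have c2 := abs_le.1 (hpt _ hp)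
  have c3 : l' (G z₁) = l' (G q) := (hall hz₁).self_of_nhds
  have c4 : l' (G p) = l' (G q) := (hall (mem_ball_self hrp)).self_of_nhds
  linarith [c1.1, c2.2]

end Pool.Agent.MP_17e62b_gt
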